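import Pool.Agent.U434.SS.Defs2
import Mathlib.Analysis.SpecialFunctions.Gamma.Deligne
import Mathlib.Analysis.Meromorphic.Basic

/-!
# Hasse-Weil L-functions of hyperkähler varieties: definitions
-/

set_option autoImplicit false

namespace Pool.Agent.U434.SS

open Module Polynomial
open Pool.Agent.N184.HK Pool.Agent.U434.PA Pool.Agent.U434.HM
open scoped Topology

section

variable {Ω : Type} [Field Ω] [TopologicalSpace Ω]

/-- The representation of `G` on `H^i` is abelian on an open subgroup of finite index, that is, over a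
finite extension of the base field. -/
def PotentiallyAbelian (X : HKFamily Ω) (i : ℕ) : Prop :=
  ∃ U : Subgroup X.G, IsOpen (U : Set X.G) ∧ U.FiniteIndex ∧
    ∀ σ ∈ U, ∀ τ ∈ U, Commute (en ((X.F σ).φ i)) (en ((X.F τ).φ i))

/-- The base of the family `X` is `ℤ[1/N]`: the closed points are the primes which do not divide
`N`. -/
structure IsOverInt (X : HKFamily Ω) (N : ℕ) : Prop where
  pos : 0 < N
  inj : Function.Injective X.norm
  primes : ∀ p : ℕ, p.Prime → ((∃ v, X.norm v = p) ↔ ¬ p ∣ N)

end

/-- The value at `t` of the polynomial `det(1 - T F) = T^b P(1/T)`, where `P = det(T - F)` is the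
characteristic polynomial. -/
noncomputable def revEval (P : ℤ[X]) (t : ℂ) : ℂ :=
  (P.map (Int.castRingHom ℂ)).reverse.eval t

/-- `L` is on the half-plane `Re s > i / 2 + 1` the Euler product of the `P_v(p_v ^ (-s))⁻¹`, where `P_v` is
the polynomial `det(1 - T F)` for the characteristic polynomial `P v`. -/
def IsEulerProduct {V : Type} (p : V → ℕ) (P : V → ℤ[X]) (i : ℕ) (L : ℂ → ℂ) : Prop :=
  ∀ s : ℂ, (i : ℝ) / 2 + 1 < s.re → HasProd (fun v => (revEval (P v) ((p v : ℂ) ^ (-s)))⁻¹) (L s)

/-- The invariants of `X` for the completed L-functions: the Hodge numbers `h p q`; the dimensions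
`plus m`, `minus m` of the eigenspaces of the complex conjugation on `H^(m, m)` for the eigenvalues
`(-1) ^ m` and `-(-1) ^ m`; for the primes `p` dividing `N` the polynomial `bad p i`, which is
`det(1 - T Frob_p)` on the invariants of the inertia group in `H^i`. -/
structure Factors where
  h : ℕ → ℕ → ℕ
  plus : ℕ → ℕ
  minus : ℕ → ℕ
  bad : ℕ → ℕ → ℂ[X]

/-- The factor `Γ_i(s)`. -/
noncomputable def Factors.gamma (D : Factors) (i : ℕ) (s : ℂ) : ℂ :=
  (∏ p ∈ Finset.range ((i + 1) / 2), Complex.Gammaℂ (s - p) ^ D.h p (i - p)) *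
    if Even i then Complex.Gammaℝ (s - (i / 2 : ℕ)) ^ D.plus (i / 2) *
      Complex.Gammaℝ (s - (i / 2 : ℕ) + 1) ^ D.minus (i / 2) else 1

/-- The completed L-function `Λ_A(i; X, s)`. -/
noncomputable def Factors.completed (D : Factors) (N i : ℕ) (A : ℝ) (L : ℂ → ℂ) (s : ℂ) : ℂ :=
  (A : ℂ) ^ (s / 2) * D.gamma i s *
    (∏ p ∈ N.primeFactors, ((D.bad p i).eval ((p : ℂ) ^ (-s)))⁻¹) * L s

/-- The meromorphic functions `f` and `g` are equal (the values at a discrete set are irrelevant). -/
def MeroEq (f g : ℂ → ℂ) : Prop := ∀ z : ℂ, ∀ᶠ s in 𝓝[≠] z, f s = g s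

/-- Parts (a) and (b) of the question: the Euler product has a meromorphic continuation `L` to the
complex plane with a functional equation for `s ↦ i + 1 - s`. -/
def Continues {V : Type} (p : V → ℕ) (P : V → ℤ[X]) (D : Factors) (N i : ℕ) : Prop :=
  ∃ L : ℂ → ℂ, MeromorphicOn L Set.univ ∧ IsEulerProduct p P i L ∧
    ∃ A : ℝ, 0 < A ∧ ∃ ε : ℂ, (ε = 1 ∨ ε = -1) ∧
      MeroEq (D.completed N i A L) fun s => ε * D.completed N i A L (i + 1 - s)

/-- The invariants of a hyperkähler variety over the rational numbers with a smooth model over `ℤ[1/N]`.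
The field `hecke` is a known theorem: if `H^i` is semisimple and potentially abelian, then its
L-function has a meromorphic continuation with a functional equation. Indeed `H^i` is then locally
algebraic (Serre, Henniart), so a virtual sum of representations induced from algebraic
Hecke characters (Brauer), and one uses the functional equation of the Hecke L-functions. -/
structure HasseWeil {Ω : Type} [Field Ω] [TopologicalSpace Ω] (X : HKFamily Ω) (N : ℕ) where
  overInt : IsOverInt X N
  D : Factors
  hecke : ∀ i ≤ X.d, Semisimple X i → PotentiallyAbelian X i →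
    Continues X.norm (fun v => X.poly v i) D N i

end Pool.Agent.U434.SS
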