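import Pool.Agent.U434.SS.Avg
import Pool.Agent.U434.SS.LDefs

/-!
# Complex multiplication
-/

set_option autoImplicit false

namespace Pool.Agent.U434.SS

open Module Module.End Polynomial
open Pool.Agent.N184.HK Pool.Agent.U434.PA Pool.Agent.U434.HM
open scoped Classical

section

variable {K H : Type} [Field K] [IsAlgClosed K] [AddCommGroup H] [Module K H]
  [FiniteDimensional K H]

omit [IsAlgClosed K] [FiniteDimensional K H] in
lemma gen_pow {f : Module.End K H} {e : K} {x : H} (hx : x ∈ f.maxGenEigenspace e) (n : ℕ) :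
    x ∈ (f ^ n).maxGenEigenspace (e ^ n) := by
  obtain ⟨k, hk⟩ := (Module.End.mem_maxGenEigenspace _ _ _).1 hx
  refine (Module.End.mem_maxGenEigenspace _ _ _).2 ⟨k, ?_⟩
  set p : K[X] := ∑ i ∈ Finset.range n, X ^ i * (C e) ^ (n - 1 - i) with hp
  have hpX : p * (X - C e) = X ^ n - C (e ^ n) := by
    rw [hp, Commute.geom_sum₂_mul (Commute.all _ _), map_pow]
  have h1 : aeval f (X - C e : K[X]) = f - e • (1 : Module.End K H) := by
    rw [map_sub, aeval_X, aeval_C]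
    rfl
  have h1n : aeval f (X ^ n - C (e ^ n) : K[X]) = f ^ n - (e ^ n) • (1 : Module.End K H) := by
    rw [map_sub, map_pow, aeval_X, aeval_C]
    rfl
  rw [← h1n, ← hpX, ← map_pow, mul_pow, map_mul, map_pow (aeval f) (X - C e) k, h1,
    Module.End.mul_apply, hk, map_zero]

lemma fop_pow (f : Module.End K H) (w : K → K) (n : ℕ) :
    fop (f ^ n) w = fop f fun e => w (e ^ n) := by
  refine ext_gen f fun e x hx => ?_
  rw [fop_apply _ hx, fop_apply _ (gen_pow hx n)]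

end

section

variable {Ω : Type} [Field Ω] [CharZero Ω] [IsAlgClosed Ω] [TopologicalSpace Ω]
  {X : HKFamily Ω}

omit [CharZero Ω] [IsAlgClosed Ω] in
lemma mu_mul (σ τ : X.G) : (X.F (σ * τ)).μ = (X.F σ).μ * (X.F τ).μ := by
  have hne : ∃ x y, X.H.q x y ≠ 0 := by
    by_contra hcon
    push Not at hcon
    have h3 := X.H.dim3
    have : Nontrivial (X.H.H 2) := Module.nontrivial_of_finrank_pos (R := Ω) (by omega)
    obtain ⟨x, hx⟩ := exists_ne (0 : X.H.H 2)
    exact hx (X.H.nondeg.1 x fun y => hcon x y)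
  obtain ⟨x, y, hxy⟩ := hne
  have h1 := (X.F (σ * τ)).similar x y
  rw [HM.phi_mul, HM.phi_mul, (X.F σ).similar, (X.F τ).similar] at h1
  refine mul_right_cancel₀ hxy ?_
  rw [← h1]
  ring

omit [CharZero Ω] [IsAlgClosed Ω] in
lemma mu_pow (σ : X.G) (n : ℕ) : (X.F (σ ^ n)).μ = (X.F σ).μ ^ n := by
  induction n with
  | zero =>
    have h1 := mu_mul (X := X) 1 1
    rw [mul_one] at h1
    rw [_root_.pow_zero, _root_.pow_zero]
    exact (mul_eq_left₀ (X.F 1).μ_ne).1 h1.symm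
  | succ n ih => rw [_root_.pow_succ, mu_mul, ih, _root_.pow_succ]

omit [CharZero Ω] in
lemma SS_pow (σ : X.G) (n : ℕ) (W : AddFun Ω) : SS (X.F (σ ^ n)) W = n • SS (X.F σ) W := by
  have h1 : fop (en ((X.F σ).φ 2)) (fun e => W.w (e ^ n)) = n • fop (en ((X.F σ).φ 2)) W.w := by
    refine ext_gen (en ((X.F σ).φ 2)) fun e x hx => ?_
    rw [fop_apply _ hx, LinearMap.smul_apply, fop_apply _ hx]
    by_cases hx0 : x = 0
    · rw [hx0, smul_zero, smul_zero, smul_zero]
    have he : e ≠ 0 := root_ne (φ := (X.F σ).φ 2) (ne_bot_iff.1 fun h => hx0 (by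
      rw [h, Submodule.mem_bot] at hx; exact hx))
    rw [W.pow he, mul_smul, Nat.cast_smul_eq_nsmul]
  rw [SS, SS, en_pow, fop_pow, h1, mu_pow, W.pow (X.F σ).μ_ne, smul_sub, ← Nat.cast_smul_eq_nsmul Ω n
    (((W.w (X.F σ).μ / 2)) • (1 : Module.End Ω (X.H.H 2))), smul_smul, mul_div_assoc]

/-- The Lie algebra commutes with the operators of an abelian subgroup of finite index. -/
lemma gal_central {U : Subgroup X.G} (hfin : U.FiniteIndex)
    (hU : ∀ σ ∈ U, ∀ τ ∈ U, Commute (en ((X.F σ).φ 2)) (en ((X.F τ).φ 2))) {σ : X.G} (hσ : σ ∈ U)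
    {A : Module.End Ω (X.H.H 2)} (hA : A ∈ galLie X Set.univ) :
    Commute (en ((X.F σ).φ 2)) A := by
  have h1 : galLie X Set.univ ≤ LinearMap.ker (LinearMap.mulLeft Ω (en ((X.F σ).φ 2)) -
      LinearMap.mulRight Ω (en ((X.F σ).φ 2))) := by
    rw [galLie, Submodule.span_le]
    rintro _ ⟨τ, -, W, rfl⟩
    obtain ⟨n, hn, -, hτn⟩ := Subgroup.exists_pow_mem_of_index_ne_zero hfin.index_ne_zero τ
    have h2 : Commute (en ((X.F σ).φ 2)) (SS (X.F (τ ^ n)) W) :=
      (fop_comm (hU σ hσ _ hτn) _).sub_right ((Commute.one_right _).smul_right _)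
    rw [SS_pow, ← Nat.cast_smul_eq_nsmul Ω n] at h2
    have hn0 : (n : Ω) ≠ 0 := by exact_mod_cast hn.ne'
    have h3 := h2.smul_right (n : Ω)⁻¹
    rw [smul_smul, inv_mul_cancel₀ hn0, one_smul] at h3
    change en ((X.F σ).φ 2) * SS (X.F τ) W - SS (X.F τ) W * en ((X.F σ).φ 2) = 0
    rw [h3.eq, sub_self]
  have h2 := h1 hA
  change en ((X.F σ).φ 2) * A - A * en ((X.F σ).φ 2) = 0 at h2
  exact sub_eq_zero.1 h2

end

section

variable {Ω : Type} [Field Ω] [CharZero Ω] [IsAlgClosed Ω] [TopologicalSpace Ω]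
  [IsTopologicalRing Ω] [T2Space Ω] {X : HKFamily Ω}

/-- An open subgroup commutes with the commutant. -/
theorem com_sub' (h : Arithmetic X) {i : ℕ} (hi : i ≤ X.d) : ∃ U : Subgroup X.G,
    IsOpen (U : Set X.G) ∧ U.FiniteIndex ∧
      ∀ σ ∈ U, ∀ B ∈ com X i, Commute (en ((X.F σ).φ i)) B := by
  obtain ⟨O, hO, h1, h2⟩ := open_of_root (X := X) (com X i) (fun σ _ hB => com_ad σ hB)
    (show 0 < PA.expo X i from Nat.factorial_pos _) fun σ B hB hB0 t ht =>
      com_root hi σ hB hB0 ht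
  obtain ⟨U, hU, hUO, hfin⟩ := h.small O hO h1
  refine ⟨U, hU, hfin, fun σ hσ B hB => ?_⟩
  have h3 := h.unip i hi U (com X i) hU (fun σ _ B hB => com_ad σ hB)
    (fun σ hσ B hB => h2 σ (hUO hσ) B hB) σ hσ B hB
  rw [one_smul] at h3
  exact (adE_eq_iff _ _).1 h3

/-- If the representation on `H²` is potentially abelian then so is the one on `H^i`. -/
theorem abelian_all (h : Arithmetic X) (h2 : PotentiallyAbelian X 2) {i : ℕ} (hi : i ≤ X.d) :
    PotentiallyAbelian X i := by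
  obtain ⟨U₀, hU₀, hfin₀, hc⟩ := h2
  obtain ⟨U, hU, hfin, hcom⟩ := com_sub' h hi
  refine ⟨U ⊓ U₀, hU.inter hU₀, inferInstance, fun σ hσ τ hτ => ?_⟩
  refine hcom σ hσ.1 _ fun A hA => ?_
  exact (rho_comm_φ (F := X.F τ) i (gal_central hfin₀ hc hτ.2 hA)).symm

end

end Pool.Agent.U434.SS
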