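import Pool.Agent.U434.SS.Com

/-!
# Semisimplicity of the cohomology
-/

set_option autoImplicit false

namespace Pool.Agent.U434.SS

open Module Module.End
open Pool.Agent.N184.HK Pool.Agent.U434.PA Pool.Agent.U434.HM
open scoped Classical

section

variable {K V G : Type} [Field K] [CharZero K] [AddCommGroup V] [Module K V] [Group G]

/-- Averaging over a subgroup of finite index. -/
theorem avg_compl (g : G → V ≃ₗ[K] V) (g1 : ∀ x, g 1 x = x)
    (hg : ∀ σ τ x, g (σ * τ) x = g σ (g τ x)) (U : Subgroup G) (hfin : U.FiniteIndex)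
    (N : Submodule K V) (hN : ∀ σ, ∀ x ∈ N, g σ x ∈ N) (π : Module.End K V)
    (h1 : ∀ x, π x ∈ N) (h2 : ∀ x ∈ N, π x = x) (hU : ∀ σ ∈ U, Commute (en (g σ)) π) :
    ∃ C : Submodule K V, (∀ σ, ∀ x ∈ C, g σ x ∈ C) ∧ IsCompl N C := by
  haveI : Fintype (G ⧸ U) := Fintype.ofFinite _
  have hinv : ∀ σ x, g σ (g σ⁻¹ x) = x := fun σ x => by rw [← hg, mul_inv_cancel, g1]
  -- the conjugates of `π`
  let P : G → V → V := fun σ x => g σ (π (g σ⁻¹ x))
  have hP : ∀ σ, ∀ u ∈ U, ∀ x, P (σ * u) x = P σ x := by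
    intro σ u hu x
    have h3 := congrArg (fun f => f (g (σ * u)⁻¹ x)) (hU u hu).eq
    change g u (π (g (σ * u)⁻¹ x)) = π (g u (g (σ * u)⁻¹ x)) at h3
    change g (σ * u) (π (g (σ * u)⁻¹ x)) = g σ (π (g σ⁻¹ x))
    rw [hg, h3, ← hg u]
    congr 4
    rw [mul_inv_rev, mul_inv_cancel_left]
  have hPq : ∀ σ τ : G, (σ : G ⧸ U) = (τ : G ⧸ U) → ∀ x, P σ x = P τ x := by
    intro σ τ h x
    have h3 : σ⁻¹ * τ ∈ U := QuotientGroup.eq.1 h
    have h4 := hP σ _ h3 x
    rw [mul_inv_cancel_left] at h4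
    exact h4.symm
  let Q : G ⧸ U → V → V := fun c => P c.out
  have hQ : ∀ (c : G ⧸ U) (σ : G), (σ : G ⧸ U) = c → ∀ x, Q c x = P σ x := by
    intro c σ h x
    refine hPq _ _ ?_ x
    rw [h]
    exact QuotientGroup.out_eq' c
  let A : Module.End K V :=
    { toFun := fun x => ∑ c, Q c x
      map_add' := by
        intro x y
        rw [← Finset.sum_add_distrib]
        refine Finset.sum_congr rfl fun c _ => ?_
        change g _ (π (g _ (x + y))) = g _ (π (g _ x)) + g _ (π (g _ y))
        rw [map_add, map_add, map_add]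
      map_smul' := by
        intro a x
        rw [RingHom.id_apply, Finset.smul_sum]
        refine Finset.sum_congr rfl fun c _ => ?_
        change g _ (π (g _ (a • x))) = a • g _ (π (g _ x))
        rw [map_smul, map_smul, map_smul] }
  have hA : ∀ x, A x = ∑ c, Q c x := fun x => rfl
  have hAN : ∀ x, A x ∈ N := fun x => by
    rw [hA]
    exact Submodule.sum_mem _ fun c _ => hN _ _ (h1 _)
  set n : K := (Fintype.card (G ⧸ U) : K) with hn
  have hn0 : n ≠ 0 := by
    rw [hn]
    exact_mod_cast Fintype.card_ne_zero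
  have hAid : ∀ x ∈ N, A x = n • x := by
    intro x hx
    have h3 : ∀ c ∈ (Finset.univ : Finset (G ⧸ U)), Q c x = x := by
      intro c _
      change g c.out (π (g c.out⁻¹ x)) = x
      rw [h2 _ (hN _ x hx), hinv]
    rw [hA, Finset.sum_congr rfl h3, Finset.sum_const, Finset.card_univ, hn, Nat.cast_smul_eq_nsmul]
  have hAg : ∀ σ x, A (g σ x) = g σ (A x) := by
    intro σ x
    rw [hA, hA, map_sum]
    refine (Fintype.sum_equiv (MulAction.toPerm σ) _ _ fun c => ?_).symm
    have h3 : Q (MulAction.toPerm σ c) (g σ x) = P (σ * c.out) (g σ x) := by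
      refine hQ _ _ ?_ _
      rw [MulAction.toPerm_apply]
      conv_rhs => rw [← QuotientGroup.out_eq' c]
      rfl
    rw [h3]
    change g σ (g c.out (π (g c.out⁻¹ x))) = g (σ * c.out) (π (g (σ * c.out)⁻¹ (g σ x)))
    rw [hg, ← hg (σ * c.out)⁻¹]
    congr 5
    rw [mul_inv_rev, inv_mul_cancel_right]
  refine ⟨LinearMap.ker A, fun σ x hx => ?_, ?_⟩
  · rw [LinearMap.mem_ker] at hx ⊢
    rw [hAg, hx, map_zero]
  · constructor
    · rw [Submodule.disjoint_def]
      intro x hx hx'
      rw [LinearMap.mem_ker, hAid x hx] at hx'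
      exact (smul_eq_zero.1 hx').resolve_left hn0
    · rw [codisjoint_iff, eq_top_iff]
      intro x _
      have h3 : x = n⁻¹ • A x + (x - n⁻¹ • A x) := by abel
      rw [h3]
      refine Submodule.add_mem_sup (Submodule.smul_mem _ _ (hAN x)) ?_
      rw [LinearMap.mem_ker, map_sub, map_smul, hAid _ (hAN x), smul_smul, inv_mul_cancel₀ hn0,
        one_smul, sub_self]

end

section

variable {Ω : Type} [Field Ω] [CharZero Ω] [IsAlgClosed Ω] [TopologicalSpace Ω]
  [IsTopologicalRing Ω] [T2Space Ω] {X : HKFamily Ω}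

/-- **Semisimplicity.** If the representation of `G` on `H²` is semisimple then so is the
representation on the cohomology. -/
theorem semisimple (h : Arithmetic X) (h2 : Semisimple X 2) {i : ℕ} (hi : i ≤ X.d) :
    Semisimple X i := by
  intro N hN
  obtain ⟨U, hfin, hU⟩ := com_sub h hi
  have hNg := gal_stable hi N hN
  obtain ⟨C, hC, hcompl⟩ := gal_compl h2 i N hNg
  have hπ : N.projection C hcompl ∈ com X i := fun A hA =>
    projection_comm hcompl (hNg A hA) (hC A hA)
  exact avg_compl (fun σ => (X.F σ).φ i) (HM.phi_one i) (fun σ τ x => HM.phi_mul σ τ i x) U hfin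
    N hN (N.projection C hcompl) (fun x => Submodule.projection_apply_mem hcompl x)
    (fun x hx => Submodule.projection_apply_of_mem_left hcompl hx) fun σ hσ => hU σ hσ _ hπ

end

end Pool.Agent.U434.SS
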