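import Pool.Agent.U434.SS.So
import Pool.Agent.U434.HM.Conv4

/-!
# Automorphisms which commute with the commutant of `so(H²)`
-/

set_option autoImplicit false

namespace Pool.Agent.U434.SS

open Module Module.End Polynomial
open Pool.Agent.N184.HK Pool.Agent.U434.PA Pool.Agent.U434.HM

section

variable {K H : Type} [Field K] [IsAlgClosed K] [AddCommGroup H] [Module K H]
  [FiniteDimensional K H]

omit [IsAlgClosed K] [FiniteDimensional K H] in
/-- A projection onto a stable subspace commutes with the action. -/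
lemma projection_comm {A : Module.End K H} {p q : Submodule K H} (h : IsCompl p q)
    (hp : ∀ x ∈ p, A x ∈ p) (hq : ∀ x ∈ q, A x ∈ q) : Commute A (p.projection q h) := by
  refine LinearMap.ext fun x => ?_
  rw [Module.End.mul_apply, Module.End.mul_apply]
  have h1 := Submodule.sub_projection_mem h x
  have h2 := Submodule.projection_apply_mem h x
  have h3 : A x = A (p.projection q h x) + A (x - p.projection q h x) := by
    rw [← map_add, add_sub_cancel]
  rw [h3, map_add, (Submodule.projection_apply_eq_zero_iff h).2 (hq _ h1), add_zero,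
    Submodule.projection_apply_of_mem_left h (hp _ h2)]

/-- The semisimple part of `φ`. -/
noncomputable def ss (φ : Module.End K H) : Module.End K H := fop φ id

lemma ss_inv (φ : H ≃ₗ[K] H) : fop (en φ) (fun e => e⁻¹) * ss (en φ) = 1 := by
  rw [ss, fop_mul]
  refine ext_gen (en φ) fun e x hx => ?_
  rw [fop_apply _ hx, Module.End.one_apply]
  by_cases hx0 : x = 0
  · rw [hx0, smul_zero]
  have he : e ∈ (en φ).charpoly.roots := ne_bot_iff.1 fun h => hx0 (by
    rw [h, Submodule.mem_bot] at hx; exact hx)
  rw [id, inv_mul_cancel₀ (root_ne he), one_smul]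

lemma ss_inv' (φ : H ≃ₗ[K] H) : ss (en φ) * fop (en φ) (fun e => e⁻¹) = 1 := by
  have h := ss_inv φ
  rw [ss, fop_mul] at h ⊢
  rw [← h]
  congr 1
  funext e
  exact mul_comm _ _

lemma nu_nil (φ : Module.End K H) : IsNilpotent (φ - ss φ) := by
  refine ⟨finrank K H, ext_gen φ fun e x hx => ?_⟩
  have h1 : ∀ (k : ℕ) (x : H), x ∈ φ.maxGenEigenspace e →
      ((φ - ss φ) ^ k) x = ((φ - e • (1 : Module.End K H)) ^ k) x := by
    intro k
    induction k with
    | zero => intro x _; rfl
    | succ k ih =>
      intro x hx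
      rw [_root_.pow_succ, _root_.pow_succ, Module.End.mul_apply, Module.End.mul_apply]
      have h2 : (φ - ss φ) x = (φ - e • (1 : Module.End K H)) x := by
        rw [LinearMap.sub_apply, LinearMap.sub_apply, ss, fop_apply _ hx]
        rfl
      rw [h2]
      refine ih _ ?_
      exact φ.mapsTo_maxGenEigenspace_of_comm
        ((Commute.refl φ).sub_right ((Commute.one_right φ).smul_right e)) e hx
  rw [h1 _ x hx, LinearMap.zero_apply]
  rw [Module.End.maxGenEigenspace_eq_genEigenspace_finrank, Module.End.mem_genEigenspace_nat,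
    LinearMap.mem_ker] at hx
  exact hx

lemma ss_conj {φ : H ≃ₗ[K] H} {t : K} {B : Module.End K H}
    (hB : B ∈ (adE φ).maxGenEigenspace t) : ss (en φ) * B = t • (B * ss (en φ)) := by
  refine ext_gen (en φ) fun e x hx => ?_
  have h1 := conj_gen hB hx
  rw [Module.End.mul_apply, ss, fop_apply _ h1, LinearMap.smul_apply, Module.End.mul_apply,
    fop_apply _ hx, map_smul, smul_smul]
  rfl

/-- Conjugation by a diagonalizable automorphism is diagonalizable. -/
lemma adE_diag {φ : H ≃ₗ[K] H} (h : Diag (en φ)) {t : K} {B : Module.End K H}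
    (hB : B ∈ (adE φ).maxGenEigenspace t) : adE φ B = t • B := by
  have h1 := ss_conj hB
  have h2 : ss (en φ) = en φ := by
    refine ext_gen (en φ) fun e x hx => ?_
    rw [ss, fop_apply _ hx, h e x hx]
    rfl
  rw [h2] at h1
  refine LinearMap.ext fun x => ?_
  obtain ⟨y, rfl⟩ := φ.surjective x
  rw [adE_apply]
  have h3 := congrArg (fun f => f y) h1
  exact h3

end

section

variable {K : Type} [Field K] [IsAlgClosed K] [CharZero K] {d : ℕ} {c : ℚ}
  {X : Cohomology K d c} (F : X.Auto)

omit [CharZero K] in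
/-- The semisimple part of `F` on `H^i` acts on `so(H²)` like `F`, if `F` is semisimple on `H²`. -/
lemma ss_rho (h2 : Diag (en (F.φ 2))) (i : ℕ) (A : Module.End K (X.H 2)) :
    ss (en (F.φ i)) * X.ρ i A = X.ρ i (adE (F.φ 2) A) * ss (en (F.φ i)) := by
  have key : LinearMap.mulLeft K (ss (en (F.φ i))) ∘ₗ X.ρ i =
      LinearMap.mulRight K (ss (en (F.φ i))) ∘ₗ X.ρ i ∘ₗ adE (F.φ 2) := by
    refine ext_gen (adE (F.φ 2)) fun t A hA => ?_
    have h1 : X.ρ i A ∈ (adE (F.φ i)).maxGenEigenspace t := by
      have hA' := hA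
      rw [Module.End.mem_maxGenEigenspace] at hA' ⊢
      obtain ⟨k, hk⟩ := hA'
      refine ⟨k, ?_⟩
      have h2 : ∀ (k : ℕ) (A : Module.End K (X.H 2)), ((adE (F.φ i) - t • 1) ^ k) (X.ρ i A) =
          X.ρ i (((adE (F.φ 2) - t • 1) ^ k) A) := by
        intro k
        induction k with
        | zero => intro A; rfl
        | succ k ih =>
          intro A
          rw [_root_.pow_succ, _root_.pow_succ, Module.End.mul_apply, Module.End.mul_apply, ← ih]
          congr 1
          change adE (F.φ i) (X.ρ i A) - t • X.ρ i A = X.ρ i (adE (F.φ 2) A - t • A)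
          rw [F.hc, map_sub, map_smul]
      rw [h2, hk, map_zero]
    change ss (en (F.φ i)) * X.ρ i A = X.ρ i (adE (F.φ 2) A) * ss (en (F.φ i))
    rw [ss_conj h1, adE_diag h2 hA, map_smul, smul_mul_assoc]
  exact congrArg (fun f => f A) key

omit [IsAlgClosed K] [CharZero K] in
lemma phi_rho (i : ℕ) (A : Module.End K (X.H 2)) :
    en (F.φ i) * X.ρ i A = X.ρ i (adE (F.φ 2) A) * en (F.φ i) := by
  refine LinearMap.ext fun x => ?_
  have h1 := F.hc i A
  have h2 := congrArg (fun f => f (F.φ i x)) h1
  rw [adE_apply] at h2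
  exact h2

/-- If `F` is semisimple on `H²` and commutes with the commutant of `so(H²)` on `H^i` then `F` is
semisimple on `H^i`. -/
theorem diag_of_central {i : ℕ} (hcen : ∀ B ∈ cen X i, Commute (en (F.φ i)) B)
    (h2 : Diag (en (F.φ 2))) : Diag (en (F.φ i)) := by
  set g := en (F.φ i) with hg
  set s := ss g with hs
  set v := fop g (fun e => e⁻¹) with hv
  set ν := g - s with hν
  have hvs : v * s = 1 := ss_inv (F.φ i)
  have hsv : s * v = 1 := ss_inv' (F.φ i)
  have hνA : ∀ A, ν * X.ρ i A = X.ρ i (adE (F.φ 2) A) * ν := by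
    intro A
    rw [hν, sub_mul, mul_sub, hg, phi_rho, hs, hg, ss_rho F h2]
  have hvA : ∀ A, v * X.ρ i (adE (F.φ 2) A) = X.ρ i A * v := by
    intro A
    have h3 := ss_rho F h2 i A
    calc v * X.ρ i (adE (F.φ 2) A) = v * (X.ρ i (adE (F.φ 2) A) * s) * v := by
          rw [mul_assoc, mul_assoc, hsv, mul_one]
      _ = v * (s * X.ρ i A) * v := by rw [hs, hg, h3]
      _ = X.ρ i A * v := by rw [← mul_assoc, hvs, one_mul]
  set z := v * ν with hz
  have hzcen : z ∈ cen X i := by
    intro A _
    change X.ρ i A * z = z * X.ρ i A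
    rw [hz, mul_assoc v ν, hνA, ← mul_assoc v, hvA, mul_assoc]
  have hcomm : ∀ B ∈ cen X i, Commute B z := by
    intro B hB
    have h3 : Commute B g := (hcen B hB).symm
    have h4 : Commute B s := fop_comm h3 _
    have h5 : Commute B v := fop_comm h3 _
    exact h5.mul_right (h3.sub_right h4)
  have hvν : Commute v ν := by
    have h3 : Commute g v := fop_comm (Commute.refl g) _
    have h4 : Commute s v := by
      rw [Commute, SemiconjBy, hvs, hsv]
    exact (h3.sub_left h4).symm
  have hznil : IsNilpotent z := hvν.isNilpotent_mul_left (nu_nil g)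
  -- the kernel of `z` is everything
  obtain ⟨C, hC, hcompl⟩ := so_compl X.symm X.nondeg X.dim3 (X.bracket i) (LinearMap.ker z)
    (fun A hA x hx => by
      rw [LinearMap.mem_ker] at hx ⊢
      have h3 := congrArg (fun f => f x) (hzcen A hA).eq
      change X.ρ i A (z x) = z (X.ρ i A x) at h3
      rw [← h3, hx, map_zero])
  have hπ : C.projection (LinearMap.ker z) hcompl.symm ∈ cen X i := fun A hA =>
    projection_comm hcompl.symm (hC A hA) fun x hx => by
      rw [LinearMap.mem_ker] at hx ⊢
      have h3 := congrArg (fun f => f x) (hzcen A hA).eq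
      change X.ρ i A (z x) = z (X.ρ i A x) at h3
      rw [← h3, hx, map_zero]
  have hzC : ∀ x ∈ C, z x ∈ C := by
    intro x hx
    have h3 := congrArg (fun f => f x) (hcomm _ hπ).eq
    change C.projection (LinearMap.ker z) hcompl.symm (z x) =
      z (C.projection (LinearMap.ker z) hcompl.symm x) at h3
    rw [Submodule.projection_apply_of_mem_left hcompl.symm hx] at h3
    rw [← h3]
    exact Submodule.projection_apply_mem _ _
  have hC0 : C = ⊥ := by
    rw [Submodule.eq_bot_iff]
    intro x hx
    by_contra hx0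
    have h3 : ∀ k : ℕ, (z ^ k) x ∈ C ∧ (z ^ k) x ≠ 0 := by
      intro k
      induction k with
      | zero => exact ⟨hx, hx0⟩
      | succ k ih =>
        rw [_root_.pow_succ', Module.End.mul_apply]
        refine ⟨hzC _ ih.1, fun h4 => ih.2 ?_⟩
        have h5 : (z ^ k) x ∈ LinearMap.ker z ⊓ C := ⟨h4, ih.1⟩
        rw [hcompl.inf_eq_bot, Submodule.mem_bot] at h5
        exact h5
    obtain ⟨k, hk⟩ := hznil
    exact (h3 k).2 (by rw [hk, LinearMap.zero_apply])
  have hz0 : z = 0 := by
    have h3 := hcompl.sup_eq_top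
    rw [hC0, sup_bot_eq, LinearMap.ker_eq_top] at h3
    exact h3
  have hν0 : g = s := by
    have h3 : ν = 0 := by
      rw [← one_mul ν, ← hsv, mul_assoc, ← hz, hz0, mul_zero]
    rw [hν, sub_eq_zero] at h3
    exact h3
  intro e x hx
  rw [hν0, hs, ss]
  exact fop_apply _ hx

end

end Pool.Agent.U434.SS
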