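import Pool.Agent.U434.SS.Gal

/-!
# The commutant of the Lie algebra of the algebraic monodromy group
-/

set_option autoImplicit false

namespace Pool.Agent.U434.SS

open Module Module.End Polynomial
open Pool.Agent.N184.HK Pool.Agent.U434.PA Pool.Agent.U434.HM
open scoped Classical

section roots

/-- A quotient of roots of an integral polynomial which is a root of unity. -/
lemma root_quot {Q : Type} [Field Q] [CharZero Q] (e e' : Q) (P : ℤ[X]) (hP : P ≠ 0)
    (he : aeval e P = 0) (he' : aeval e' P = 0) {N : ℕ} (hN : 0 < N) (h : (e' / e) ^ N = 1) :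
    (e' / e) ^ (2 * P.natDegree ^ 2).factorial = 1 := by
  have key : ∀ e : Q, aeval e P = 0 → FiniteDimensional ℚ (IntermediateField.adjoin ℚ {e}) ∧
      finrank ℚ (IntermediateField.adjoin ℚ {e}) ≤ P.natDegree := by
    intro e he
    have hPQ : aeval e (P.map (Int.castRingHom ℚ)) = 0 := by
      have h1 := he
      rw [aeval_def] at h1
      rw [aeval_def, eval₂_map, ← h1]
      congr 1
      exact RingHom.ext_int _ _
    have hP0 : P.map (Int.castRingHom ℚ) ≠ 0 := by
      rw [Ne, Polynomial.map_eq_zero_iff Int.cast_injective]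
      exact hP
    have hint : IsIntegral ℚ e := by
      rw [← isAlgebraic_iff_isIntegral]
      exact ⟨_, hP0, hPQ⟩
    refine ⟨IntermediateField.adjoin.finiteDimensional hint, ?_⟩
    rw [IntermediateField.adjoin.finrank hint]
    have h1 := natDegree_le_of_dvd (minpoly.dvd ℚ e hPQ) hP0
    rwa [natDegree_map_eq_of_injective Int.cast_injective] at h1
  obtain ⟨h1, h2⟩ := key e he
  obtain ⟨h1', h2'⟩ := key e' he'
  set E := IntermediateField.adjoin ℚ {e} ⊔ IntermediateField.adjoin ℚ {e'} with hE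
  have hE2 : finrank ℚ E ≤ P.natDegree ^ 2 := by
    rw [pow_two]
    exact (IntermediateField.finrank_sup_le _ _).trans (Nat.mul_le_mul h2 h2')
  have hE1 : FiniteDimensional ℚ E := inferInstance
  set θ := e' / e with hθ
  have hθE : θ ∈ E := div_mem
    (SetLike.le_def.mp le_sup_right (IntermediateField.mem_adjoin_simple_self ℚ e'))
    (SetLike.le_def.mp le_sup_left (IntermediateField.mem_adjoin_simple_self ℚ e))
  have hmin := IntermediateField.minpoly_eq (K := ℚ) (S := E) (⟨_, hθE⟩ : E)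
  have hB : (minpoly ℚ θ).natDegree ≤ P.natDegree ^ 2 := by
    have e' : minpoly ℚ θ = _ := hmin.symm
    rw [e']
    exact (minpoly.natDegree_le _).trans hE2
  have hfin : IsOfFinOrder θ := isOfFinOrder_iff_pow_eq_one.2 ⟨N, hN, h⟩
  obtain ⟨k, hk⟩ : ∃ k, k = orderOf θ := ⟨_, rfl⟩
  have hk0 : 0 < k := by rw [hk]; exact hfin.orderOf_pos
  have hprim : IsPrimitiveRoot θ k := by rw [hk]; exact IsPrimitiveRoot.orderOf θ
  have h4 := cyclotomic_eq_minpoly_rat hprim hk0
  have h5 : k.totient ≤ P.natDegree ^ 2 := by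
    rw [← natDegree_cyclotomic k ℚ, h4]
    exact hB
  obtain ⟨c, hc⟩ := P_ROOT.dvd_fact k _ hk0 h5
  rw [hc, pow_mul, hprim.pow_eq_one, one_pow]

end roots

section

variable {Ω : Type} [Field Ω] [CharZero Ω] [IsAlgClosed Ω] [TopologicalSpace Ω]
  {X : HKFamily Ω}

/-- The commutant in `End(H^i)` of the Lie algebra. -/
noncomputable def com (X : HKFamily Ω) (i : ℕ) : Submodule Ω (Module.End Ω (X.H.H i)) where
  carrier := {B | ∀ A ∈ galLie X Set.univ, Commute (X.H.ρ i A) B}
  add_mem' h h' := fun A hA => (h A hA).add_right (h' A hA)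
  zero_mem' := fun _ _ => Commute.zero_right _
  smul_mem' := fun c _ h A hA => (h A hA).smul_right c

omit [CharZero Ω] in
lemma mem_com {i : ℕ} {B : Module.End Ω (X.H.H i)} :
    B ∈ com X i ↔ ∀ A ∈ galLie X Set.univ, Commute (X.H.ρ i A) B := Iff.rfl

omit [CharZero Ω] in
lemma com_ad {i : ℕ} (σ : X.G) {B : Module.End Ω (X.H.H i)} (hB : B ∈ com X i) :
    adE ((X.F σ).φ i) B ∈ com X i := by
  intro A hA
  set A' := adE ((X.F σ⁻¹).φ 2) A with hA'
  have h1 : A' ∈ galLie X Set.univ := gal_adE σ⁻¹ hA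
  have h2 : adE ((X.F σ).φ 2) A' = A := by
    refine LinearMap.ext fun x => ?_
    have h3 : x = (X.F σ).φ 2 ((X.F σ⁻¹).φ 2 x) := by
      rw [← HM.phi_mul, mul_inv_cancel, HM.phi_one]
    rw [h3, adE_apply, hA', adE_apply, ← h3, ← HM.phi_mul, mul_inv_cancel, HM.phi_one]
  have h3 : X.H.ρ i A = adE ((X.F σ).φ i) (X.H.ρ i A') := by
    rw [(X.F σ).hc, h2]
  have h4 := (hB A' h1).eq
  change X.H.ρ i A * adE ((X.F σ).φ i) B = adE ((X.F σ).φ i) B * X.H.ρ i A
  rw [h3]
  refine LinearMap.ext fun x => ?_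
  obtain ⟨y, rfl⟩ := ((X.F σ).φ i).surjective x
  rw [Module.End.mul_apply, Module.End.mul_apply, adE_apply, adE_apply, adE_apply, adE_apply]
  exact congrArg (fun f => (X.F σ).φ i (f y)) h4

end

section

variable {Ω : Type} [Field Ω] [CharZero Ω] [IsAlgClosed Ω] [TopologicalSpace Ω]
  [IsTopologicalRing Ω] [T2Space Ω] {X : HKFamily Ω}

/-- The eigenvalues on the commutant are roots of unity. -/
lemma com_torsion {i : ℕ} (hi : i ≤ X.d) (σ : X.G) {B : Module.End Ω (X.H.H i)}
    (hB : B ∈ com X i) (hB0 : B ≠ 0) {t : Ω} (ht : t ≠ 0)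
    (hBt : B ∈ (adE ((X.F σ).φ i)).maxGenEigenspace t) : ∃ N : ℕ, 0 < N ∧ t ^ N = 1 := by
  refine torsion_of_addFun ht fun W => ?_
  have h1 := comm_fop' W hBt
  rw [fop_formula (inClosure σ) W hi] at h1
  have h2 : Commute (X.H.ρ i (SS (X.F σ) W)) B :=
    hB _ (Submodule.subset_span ⟨σ, Set.mem_univ _, W, rfl⟩)
  rw [add_mul, mul_add, smul_mul_assoc, mul_smul_comm, one_mul, mul_one, h2.eq, sub_self] at h1
  exact (smul_eq_zero.1 h1.symm).resolve_right hB0

/-- The eigenvalues of a Frobenius element on the commutant are roots of unity of bounded order. -/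
lemma com_frob {i : ℕ} (hi : i ≤ X.d) {s : X.P} {σ : X.G} (hσ : σ ∈ X.Frob s)
    {B : Module.End Ω (X.H.H i)} (hB : B ∈ com X i) (hB0 : B ≠ 0) {t : Ω}
    (hBt : B ∈ (adE ((X.F σ).φ i)).maxGenEigenspace t) : t ^ PA.expo X i = 1 := by
  -- eigenvalues `e` and `t e`
  have hex : ∃ e, ∃ x ∈ (en ((X.F σ).φ i)).maxGenEigenspace e, B x ≠ 0 := by
    by_contra hcon
    push Not at hcon
    exact hB0 (ext_gen (en ((X.F σ).φ i)) fun e x hx => by
      rw [hcon e x hx, LinearMap.zero_apply])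
  obtain ⟨e, x, hx, hBx⟩ := hex
  have h1 := conj_gen hBt hx
  have hx0 : x ≠ 0 := fun h => hBx (by rw [h, map_zero])
  have he : e ∈ (en ((X.F σ).φ i)).charpoly.roots := ne_bot_iff.1 fun h => hx0 (by
    rw [h, Submodule.mem_bot] at hx; exact hx)
  have hte : t * e ∈ (en ((X.F σ).φ i)).charpoly.roots := ne_bot_iff.1 fun h => hBx (by
    rw [h, Submodule.mem_bot] at h1; exact h1)
  have he0 := root_ne he
  have ht0 : t ≠ 0 := left_ne_zero_of_mul (root_ne hte)
  obtain ⟨N, hN, htN⟩ := com_torsion hi σ hB hB0 ht0 hBt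
  have hc := X.frobPoly s σ hσ i hi
  have hP : X.poly s i ≠ 0 := fun h1 => by
    have h2 := hc
    rw [h1, Polynomial.map_zero] at h2
    exact (LinearMap.charpoly_monic (en ((X.F σ).φ i))).ne_zero h2
  have hdeg : (X.poly s i).natDegree = finrank Ω (X.H.H i) := by
    have h2 := congrArg natDegree hc
    rw [LinearMap.charpoly_natDegree, natDegree_map_eq_of_injective (RingHom.injective_int _)] at h2
    exact h2.symm
  have hroot : ∀ e : Ω, e ∈ (en ((X.F σ).φ i)).charpoly.roots → aeval e (X.poly s i) = 0 := by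
    intro e he
    rw [mem_roots (LinearMap.charpoly_monic _).ne_zero, hc, IsRoot.def, eval_map] at he
    rw [aeval_def, ← he]
    congr 1
  have hq : t * e / e = t := by rw [mul_div_assoc, div_self he0, mul_one]
  have h2 := root_quot e (t * e) (X.poly s i) hP (hroot e he) (hroot _ hte) hN (by
    rw [hq]; exact htN)
  rw [hq, hdeg] at h2
  exact h2

/-- The elements of `G` act quasi-unipotently on the commutant. -/
lemma com_quasi {i : ℕ} (hi : i ≤ X.d) (σ : X.G) {B : Module.End Ω (X.H.H i)}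
    (hB : B ∈ com X i) :
    (((adE ((X.F σ).φ i)) ^ (PA.expo X i) - 1) ^ (finrank Ω (com X i))) B = 0 := by
  rw [← dop_iff]
  refine clo_zero' (PE_dop i (PA.expo X i) (finrank Ω (com X i)) B) (fun v τ hτ => ?_)
    (inClosure σ)
  change (dop (en ((X.F τ).φ i) ^ PA.expo X i) ^ (finrank Ω (com X i))) B = 0
  rw [dop_iff]
  have hst : ∀ x ∈ com X i, adE ((X.F τ).φ i) x ∈ com X i := fun x hx => com_ad τ hx
  have h1 := t_qu Ω (com X i) ((adE ((X.F τ).φ i)).restrict hst) (PA.expo X i) (by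
    intro t ht
    obtain ⟨x, hx⟩ := ht.exists_hasEigenvector
    have hx1 := hx.apply_eq_smul
    have hx2 : adE ((X.F τ).φ i) (x : Module.End Ω (X.H.H i)) = t • (x : Module.End Ω _) :=
      congrArg Subtype.val hx1
    have hx0 : (x : Module.End Ω (X.H.H i)) ≠ 0 := fun h => hx.2 (Subtype.ext h)
    refine com_frob hi hτ x.2 hx0 ?_
    rw [Module.End.mem_maxGenEigenspace]
    refine ⟨1, ?_⟩
    rw [pow_one, LinearMap.sub_apply, hx2, LinearMap.smul_apply]
    exact sub_self _)
  have h2 := restrict_quasi (p := com X i) (f := (adE ((X.F τ).φ i)).restrict hst)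
    (g := adE ((X.F τ).φ i)) (fun x => rfl) (PA.expo X i) (finrank Ω (com X i)) ⟨B, hB⟩
  rw [h1] at h2
  rw [← h2]
  rfl

lemma com_root {i : ℕ} (hi : i ≤ X.d) (σ : X.G) {B : Module.End Ω (X.H.H i)}
    (hB : B ∈ com X i) (hB0 : B ≠ 0) {t : Ω}
    (hBt : B ∈ (adE ((X.F σ).φ i)).maxGenEigenspace t) : t ^ PA.expo X i = 1 := by
  refine root_of_quasi (m := finrank Ω (com X i)) hB0 hBt ?_
  rintro b ⟨k, rfl⟩
  refine com_quasi hi σ ?_
  induction k with
  | zero => exact hB
  | succ k ih =>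
    rw [_root_.pow_succ', Module.End.mul_apply, LinearMap.sub_apply]
    exact Submodule.sub_mem _ (com_ad σ ih) (Submodule.smul_mem _ _ ih)

/-- A neighbourhood of the identity acts unipotently on a stable subspace of `End(H^i)`, if the
eigenvalues of `G` are roots of unity of bounded order. -/
theorem open_of_root {i : ℕ} (T : Submodule Ω (Module.End Ω (X.H.H i)))
    (hT : ∀ σ, ∀ B ∈ T, adE ((X.F σ).φ i) B ∈ T) {M : ℕ} (hM : 0 < M)
    (hroot : ∀ σ, ∀ B ∈ T, B ≠ 0 → ∀ t : Ω,
      B ∈ (adE ((X.F σ).φ i)).maxGenEigenspace t → t ^ M = 1) :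
    ∃ O : Set X.G, IsOpen O ∧ 1 ∈ O ∧
      ∀ σ ∈ O, ∀ B ∈ T, GenEigen (adE ((X.F σ).φ i)) (1 : Ω) B := by
  set S : Finset Ω := (nthRoots M (1 : Ω)).toFinset.erase 1 with hS
  set O : Set X.G := ⋂ ζ ∈ S, {σ | LinearMap.det (LinearMap.mulLeft Ω (en ((X.F σ).φ i)) -
    ζ • LinearMap.mulRight Ω (en ((X.F σ).φ i))) ≠ 0} with hO
  refine ⟨O, ?_, ?_, ?_⟩
  · refine isOpen_biInter_finset fun ζ _ => ?_
    exact isOpen_compl_singleton.preimage (cts_det (cts_left i ζ))
  · refine Set.mem_iInter₂.2 fun ζ hζ => ?_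
    have hζ1 : ζ ≠ 1 := Finset.ne_of_mem_erase hζ
    rw [Set.mem_ofPred_eq]
    have h1 : LinearMap.mulLeft Ω (en ((X.F 1).φ i)) - ζ • LinearMap.mulRight Ω (en ((X.F 1).φ i)) =
        (1 - ζ) • (1 : Module.End Ω (Module.End Ω (X.H.H i))) := by
      refine LinearMap.ext fun B => LinearMap.ext fun x => ?_
      change (X.F 1).φ i (B x) - ζ • B ((X.F 1).φ i x) = (1 - ζ) • B x
      rw [HM.phi_one, HM.phi_one, sub_smul, one_smul]
    rw [h1, LinearMap.det_smul, map_one, mul_one]
    exact pow_ne_zero _ (sub_ne_zero.2 hζ1.symm)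
  · intro σ hσ B hB
    have h1 := t_qu Ω T ((adE ((X.F σ).φ i)).restrict (hT σ)) 1 (by
      intro t ht
      obtain ⟨x, hx⟩ := ht.exists_hasEigenvector
      have hx1 := hx.apply_eq_smul
      have hx2 : adE ((X.F σ).φ i) (x : Module.End Ω (X.H.H i)) = t • (x : Module.End Ω _) :=
        congrArg Subtype.val hx1
      have hx0 : (x : Module.End Ω (X.H.H i)) ≠ 0 := fun h => hx.2 (Subtype.ext h)
      have hxg : (x : Module.End Ω (X.H.H i)) ∈ (adE ((X.F σ).φ i)).maxGenEigenspace t := by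
        rw [Module.End.mem_maxGenEigenspace]
        refine ⟨1, ?_⟩
        rw [pow_one, LinearMap.sub_apply, hx2, LinearMap.smul_apply]
        exact sub_self _
      have hr := hroot σ x x.2 hx0 t hxg
      rw [pow_one]
      by_contra ht1
      have h3 : t ∈ S := by
        rw [hS, Finset.mem_erase, Multiset.mem_toFinset, mem_nthRoots hM]
        exact ⟨ht1, hr⟩
      refine Set.mem_iInter₂.1 hσ t h3 ?_
      by_contra hdet
      have hu : IsUnit (LinearMap.mulLeft Ω (en ((X.F σ).φ i)) -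
          t • LinearMap.mulRight Ω (en ((X.F σ).φ i))) := by
        rw [LinearMap.isUnit_iff_isUnit_det]
        exact isUnit_iff_ne_zero.2 hdet
      rw [Module.End.isUnit_iff] at hu
      refine hx0 (hu.1 ?_)
      rw [map_zero]
      change en ((X.F σ).φ i) * (x : Module.End Ω (X.H.H i)) -
        t • ((x : Module.End Ω (X.H.H i)) * en ((X.F σ).φ i)) = 0
      refine LinearMap.ext fun y => ?_
      have h4 := adE_apply ((X.F σ).φ i) (x : Module.End Ω (X.H.H i)) y
      rw [hx2] at h4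
      change (X.F σ).φ i ((x : Module.End Ω (X.H.H i)) y) -
        t • (x : Module.End Ω (X.H.H i)) ((X.F σ).φ i y) = 0
      rw [← h4]
      exact sub_self _)
    have h2 := restrict_quasi (p := T) (f := (adE ((X.F σ).φ i)).restrict (hT σ))
      (g := adE ((X.F σ).φ i)) (fun x => rfl) 1 (finrank Ω T) ⟨B, hB⟩
    rw [h1, pow_one] at h2
    refine ⟨finrank Ω T, ?_⟩
    rw [one_smul, ← h2]
    rfl

/-- A subgroup of finite index commutes with the commutant. -/
theorem com_sub (h : Arithmetic X) {i : ℕ} (hi : i ≤ X.d) : ∃ U : Subgroup X.G,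
    U.FiniteIndex ∧ ∀ σ ∈ U, ∀ B ∈ com X i, Commute (en ((X.F σ).φ i)) B := by
  obtain ⟨O, hO, h1, h2⟩ := open_of_root (X := X) (com X i) (fun σ _ hB => com_ad σ hB)
    (show 0 < PA.expo X i from Nat.factorial_pos _) fun σ B hB hB0 t ht =>
      com_root hi σ hB hB0 ht
  obtain ⟨U, hU, hUO, hfin⟩ := h.small O hO h1
  refine ⟨U, hfin, fun σ hσ B hB => ?_⟩
  have h3 := h.unip i hi U (com X i) hU (fun σ _ B hB => com_ad σ hB)
    (fun σ hσ B hB => h2 σ (hUO hσ) B hB) σ hσ B hB
  rw [one_smul] at h3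
  exact (adE_eq_iff _ _).1 h3

end

end Pool.Agent.U434.SS
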