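import Pool.Agent.U434.HM.Defs

/-!
# Semisimplicity for hyperkähler varieties: definitions
-/

set_option autoImplicit false

namespace Pool.Agent.U434.SS

open Module
open Pool.Agent.N184.HK Pool.Agent.U434.PA Pool.Agent.U434.HM

/-- `X` is defined over a number field `k` (or a finitely generated field of characteristic zero) and
`G = X.G` is the fundamental group of `S` (see `HKFamily`), acting on the `ℓ`-adic cohomology. So `G`
is profinite. If an open subgroup `U` of `G` acts on a stable subspace `T` of the endomorphisms of `H^i`
by unipotent operators, then it acts trivially on it. This is known: `T` is a successive extension of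
trivial representations (Kolchin), and it is de Rham at the places over `ℓ` (Faltings). So the inertia
groups act trivially on `T` (Sen, for the places over `ℓ`), and there is no nontrivial homomorphism
from the Galois group of a number field to the additive group `ℚ_ℓ` which is unramified everywhere
(class field theory), that is, `H¹_g(k, ℚ_ℓ) = 0`. -/
structure Arithmetic {Ω : Type} [Field Ω] [CharZero Ω] [TopologicalSpace Ω] (X : HKFamily Ω) :
    Prop where
  small : ∀ O : Set X.G, IsOpen O → 1 ∈ O →
    ∃ U : Subgroup X.G, IsOpen (U : Set X.G) ∧ (U : Set X.G) ⊆ O ∧ U.FiniteIndex
  unip : ∀ i ≤ X.d, TrivialIfUnipotent (fun σ => adE ((X.F σ).φ i)) fun _ => (1 : Ω)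

end Pool.Agent.U434.SS
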