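import Pool.Agent.U434.SS.Defs

/-!
# Semisimple representations
-/

set_option autoImplicit false

namespace Pool.Agent.U434.SS

open Module
open Pool.Agent.N184.HK Pool.Agent.U434.PA Pool.Agent.U434.HM

/-- Each subspace of `V` which is stable under the operators `g σ` has a stable complement. -/
def CompletelyReducible {K V G : Type} [Field K] [AddCommGroup V] [Module K V]
    (g : G → Module.End K V) : Prop :=
  ∀ N : Submodule K V, (∀ σ, ∀ x ∈ N, g σ x ∈ N) →
    ∃ C : Submodule K V, (∀ σ, ∀ x ∈ C, g σ x ∈ C) ∧ IsCompl N C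

/-- The representation of `G` on `H^i` is semisimple. -/
def Semisimple {Ω : Type} [Field Ω] [TopologicalSpace Ω] (X : HKFamily Ω) (i : ℕ) : Prop :=
  CompletelyReducible fun σ => en ((X.F σ).φ i)

end Pool.Agent.U434.SS
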