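import Pool.Agent.U434.SS.Defs
import Pool.Agent.U434.SS.Central

/-!
# Semisimplicity of the elements of the Galois group
-/

set_option autoImplicit false

namespace Pool.Agent.U434.SS

open Module Module.End Polynomial
open Pool.Agent.N184.HK Pool.Agent.U434.PA Pool.Agent.U434.HM

section powers

variable {K H : Type} [Field K] [IsAlgClosed K] [AddCommGroup H] [Module K H]
  [FiniteDimensional K H]

lemma diag_fop (φ : Module.End K H) (w : K → K) : Diag (fop φ w) := by
  intro e x hx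
  rw [(t_fope K H φ _).2.1] at hx
  exact Module.End.mem_eigenspace_iff.1 hx

lemma diag_pow {f : Module.End K H} (h : Diag f) (n : ℕ) : Diag (f ^ n) := by
  have h1 : f ^ n = fop f (fun e => e ^ n) := by
    refine ext_gen f fun e x hx => ?_
    rw [fop_apply _ hx]
    induction n with
    | zero => simp
    | succ n ih =>
      rw [_root_.pow_succ, Module.End.mul_apply, h e x hx, map_smul, ih, smul_smul,
        _root_.pow_succ, mul_comm]
  rw [h1]
  exact diag_fop _ _

omit [IsAlgClosed K] in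
lemma diag_of_pow [CharZero K] {φ : H ≃ₗ[K] H} {n : ℕ} (hn : 0 < n) (h : Diag (en φ ^ n)) :
    Diag (en φ) := by
  intro e x hx
  set f := en φ with hf
  by_cases hx0 : x = 0
  · rw [hx0, map_zero, smul_zero]
  have he : e ≠ 0 := root_ne (φ := φ) (ne_bot_iff.1 fun h => hx0 (by
    rw [h, Submodule.mem_bot] at hx; exact hx))
  obtain ⟨k, hk⟩ := (Module.End.mem_maxGenEigenspace _ _ _).1 hx
  set p : K[X] := ∑ i ∈ Finset.range n, X ^ i * (C e) ^ (n - 1 - i) with hp
  have hpX : p * (X - C e) = X ^ n - C (e ^ n) := by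
    rw [hp, Commute.geom_sum₂_mul (Commute.all _ _), map_pow]
  have h1 : ∀ c : K, aeval f (X - C c : K[X]) = f - c • (1 : Module.End K H) := by
    intro c
    rw [map_sub, aeval_X, aeval_C]
    rfl
  have h1n : aeval f (X ^ n - C (e ^ n) : K[X]) = f ^ n - (e ^ n) • (1 : Module.End K H) := by
    rw [map_sub, map_pow, aeval_X, aeval_C]
    rfl
  -- `f ^ n` acts as `e ^ n`
  have h2 : (f ^ n) x = (e ^ n) • x := by
    refine h (e ^ n) x ((Module.End.mem_maxGenEigenspace _ _ _).2 ⟨k, ?_⟩)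
    rw [← h1n, ← hpX, ← map_pow, mul_pow, map_mul, map_pow (aeval f) (X - C e) k, h1,
      Module.End.mul_apply, hk, map_zero]
  set y := (f - e • (1 : Module.End K H)) x with hy
  have h3 : aeval f p y = 0 := by
    rw [hy, ← h1, ← Module.End.mul_apply, ← map_mul, hpX, h1n, LinearMap.sub_apply, h2]
    exact sub_self _
  have h4 : ((f - e • (1 : Module.End K H)) ^ k) y = 0 := by
    rw [hy, ← Module.End.mul_apply, ← _root_.pow_succ, _root_.pow_succ', Module.End.mul_apply, hk,
      map_zero]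
  have h5 : p.eval e ≠ 0 := by
    have h6 : p.eval e = n * e ^ (n - 1) := by
      rw [hp, eval_finset_sum]
      have h7 : ∀ i ∈ Finset.range n, (X ^ i * (C e) ^ (n - 1 - i) : K[X]).eval e = e ^ (n - 1) := by
        intro i hi
        rw [Finset.mem_range] at hi
        rw [eval_mul, eval_pow, eval_X, eval_pow, eval_C, ← pow_add]
        congr 1
        omega
      rw [Finset.sum_congr rfl h7, Finset.sum_const, Finset.card_range, nsmul_eq_mul]
    rw [h6]
    exact mul_ne_zero (by exact_mod_cast hn.ne') (pow_ne_zero _ he)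
  have hcop : IsCoprime p ((X - C e : K[X]) ^ k) := by
    refine IsCoprime.pow_right ?_
    refine ((irreducible_X_sub_C e).coprime_iff_not_dvd.2 fun hd => h5 ?_).symm
    exact dvd_iff_isRoot.1 hd
  obtain ⟨A, B, hAB⟩ := hcop
  have h6 := congrArg (fun p => aeval f p y) hAB
  simp only [map_add, map_mul, map_pow, map_one, h1, LinearMap.add_apply, Module.End.mul_apply,
    h3, h4, map_zero, add_zero, Module.End.one_apply] at h6
  have h7 : y = 0 := h6.symm
  rw [hy, LinearMap.sub_apply, sub_eq_zero] at h7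
  exact h7

end powers

section

variable {Ω : Type} [Field Ω] [CharZero Ω] [IsAlgClosed Ω] [TopologicalSpace Ω]
  [IsTopologicalRing Ω] [T2Space Ω] {X : HKFamily Ω}

omit [CharZero Ω] [IsAlgClosed Ω] [T2Space Ω] in
lemma cts_left (i : ℕ) (ζ : Ω) : Cts fun σ => LinearMap.mulLeft Ω (en ((X.F σ).φ i)) -
    ζ • LinearMap.mulRight Ω (en ((X.F σ).φ i)) := by
  have h1 : Cts fun σ => LinearMap.mulLeft Ω (en ((X.F σ).φ i)) := fun L =>
    X.cont i (L ∘ₗ LinearMap.mul Ω (Module.End Ω (X.H.H i)))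
  have h2 : Cts fun σ => LinearMap.mulRight Ω (en ((X.F σ).φ i)) := fun L =>
    X.cont i (L ∘ₗ (LinearMap.mul Ω (Module.End Ω (X.H.H i))).flip)
  exact cts_sub h1 (cts_smul continuous_const h2)

/-- A neighbourhood of the identity acts unipotently on the commutant of `so(H²)`. -/
theorem exists_open {i : ℕ} (hi : i ≤ X.d) : ∃ O : Set X.G, IsOpen O ∧ 1 ∈ O ∧
    ∀ σ ∈ O, ∀ B ∈ cen X.H i, GenEigen (adE ((X.F σ).φ i)) (1 : Ω) B := by
  classical
  set M := PA.expo X i with hM
  set S : Finset Ω := (nthRoots M (1 : Ω)).toFinset.erase 1 with hS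
  set O : Set X.G := ⋂ ζ ∈ S, {σ | LinearMap.det (LinearMap.mulLeft Ω (en ((X.F σ).φ i)) -
    ζ • LinearMap.mulRight Ω (en ((X.F σ).φ i))) ≠ 0} with hO
  refine ⟨O, ?_, ?_, ?_⟩
  · refine isOpen_biInter_finset fun ζ _ => ?_
    exact isOpen_compl_singleton.preimage (cts_det (cts_left i ζ))
  · refine Set.mem_iInter₂.2 fun ζ hζ => ?_
    have hζ1 : ζ ≠ 1 := Finset.ne_of_mem_erase hζ
    rw [Set.mem_ofPred_eq]
    have h1 : LinearMap.mulLeft Ω (en ((X.F 1).φ i)) - ζ • LinearMap.mulRight Ω (en ((X.F 1).φ i)) =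
        (1 - ζ) • (1 : Module.End Ω (Module.End Ω (X.H.H i))) := by
      refine LinearMap.ext fun B => LinearMap.ext fun x => ?_
      change (X.F 1).φ i (B x) - ζ • B ((X.F 1).φ i x) = (1 - ζ) • B x
      rw [HM.phi_one, HM.phi_one, sub_smul, one_smul]
    rw [h1, LinearMap.det_smul, map_one, mul_one]
    exact pow_ne_zero _ (sub_ne_zero.2 hζ1.symm)
  · intro σ hσ B hB
    have hst : ∀ x ∈ cen X.H i, adE ((X.F σ).φ i) x ∈ cen X.H i := fun x hx => cen_ad _ hx
    have h1 := t_qu Ω (cen X.H i) ((adE ((X.F σ).φ i)).restrict hst) 1 (by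
      intro t ht
      obtain ⟨x, hx⟩ := ht.exists_hasEigenvector
      have hx1 := hx.apply_eq_smul
      have hx2 : adE ((X.F σ).φ i) (x : Module.End Ω (X.H.H i)) = t • (x : Module.End Ω _) :=
        congrArg Subtype.val hx1
      have hx0 : (x : Module.End Ω (X.H.H i)) ≠ 0 := fun h => hx.2 (Subtype.ext h)
      have hxg : (x : Module.End Ω (X.H.H i)) ∈ (adE ((X.F σ).φ i)).maxGenEigenspace t := by
        rw [Module.End.mem_maxGenEigenspace]
        refine ⟨1, ?_⟩
        rw [pow_one, LinearMap.sub_apply, hx2, LinearMap.smul_apply]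
        exact sub_self _
      have hroot := PA.cen_root (inClosure σ) hi x.2 hx0 hxg
      rw [pow_one]
      by_contra ht1
      have h3 : t ∈ S := by
        rw [hS, Finset.mem_erase, Multiset.mem_toFinset,
          mem_nthRoots (show 0 < M from Nat.factorial_pos _)]
        exact ⟨ht1, hroot⟩
      refine Set.mem_iInter₂.1 hσ t h3 ?_
      by_contra hdet
      have hu : IsUnit (LinearMap.mulLeft Ω (en ((X.F σ).φ i)) -
          t • LinearMap.mulRight Ω (en ((X.F σ).φ i))) := by
        rw [LinearMap.isUnit_iff_isUnit_det]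
        exact isUnit_iff_ne_zero.2 hdet
      rw [Module.End.isUnit_iff] at hu
      refine hx0 (hu.1 ?_)
      rw [map_zero]
      change en ((X.F σ).φ i) * (x : Module.End Ω (X.H.H i)) -
        t • ((x : Module.End Ω (X.H.H i)) * en ((X.F σ).φ i)) = 0
      refine LinearMap.ext fun y => ?_
      have h4 := adE_apply ((X.F σ).φ i) (x : Module.End Ω (X.H.H i)) y
      rw [hx2] at h4
      change (X.F σ).φ i ((x : Module.End Ω (X.H.H i)) y) -
        t • (x : Module.End Ω (X.H.H i)) ((X.F σ).φ i y) = 0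
      rw [← h4]
      exact sub_self _)
    have h2 := restrict_quasi (p := cen X.H i) (f := (adE ((X.F σ).φ i)).restrict hst)
      (g := adE ((X.F σ).φ i)) (fun x => rfl) 1 (finrank Ω (cen X.H i)) ⟨B, hB⟩
    rw [h1, pow_one] at h2
    refine ⟨finrank Ω (cen X.H i), ?_⟩
    rw [one_smul, ← h2]
    rfl

/-- A subgroup of finite index commutes with the commutant of `so(H²)`. -/
theorem exists_sub (h : Arithmetic X) {i : ℕ} (hi : i ≤ X.d) : ∃ U : Subgroup X.G,
    U.FiniteIndex ∧ ∀ σ ∈ U, ∀ B ∈ cen X.H i, Commute (en ((X.F σ).φ i)) B := by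
  obtain ⟨O, hO, h1, h2⟩ := exists_open (X := X) hi
  obtain ⟨U, hU, hUO, hfin⟩ := h.small O hO h1
  refine ⟨U, hfin, fun σ hσ B hB => ?_⟩
  have h3 := h.unip i hi U (cen X.H i) hU (fun σ _ B hB => cen_ad _ hB)
    (fun σ hσ B hB => h2 σ (hUO hσ) B hB) σ hσ B hB
  rw [one_smul] at h3
  exact (adE_eq_iff _ _).1 h3

omit [CharZero Ω] [IsAlgClosed Ω] [IsTopologicalRing Ω] [T2Space Ω] in
lemma en_pow (σ : X.G) (i n : ℕ) : en ((X.F (σ ^ n)).φ i) = en ((X.F σ).φ i) ^ n := by
  induction n with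
  | zero =>
    refine LinearMap.ext fun x => ?_
    rw [pow_zero, pow_zero]
    exact HM.phi_one i x
  | succ n ih =>
    rw [pow_succ, en_mul, ih, pow_succ]

/-- **Semisimplicity.** If `σ` is semisimple on `H²` then it is semisimple on the cohomology. -/
theorem frob_ss (h : Arithmetic X) (σ : X.G) (h2 : Diag (en ((X.F σ).φ 2))) {i : ℕ}
    (hi : i ≤ X.d) : Diag (en ((X.F σ).φ i)) := by
  obtain ⟨U, hfin, hU⟩ := exists_sub h hi
  obtain ⟨n, hn, -, hσn⟩ := Subgroup.exists_pow_mem_of_index_ne_zero hfin.index_ne_zero σ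
  refine diag_of_pow hn ?_
  rw [← en_pow]
  refine diag_of_central (X.F (σ ^ n)) (fun B hB => hU _ hσn B hB) ?_
  rw [en_pow]
  exact diag_pow h2 n

end

end Pool.Agent.U434.SS
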