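import Pool.Agent.U434.SS.Rad
import Pool.Agent.U434.SS.Defs2

/-!
# The Lie algebra of the algebraic monodromy group of `H²`
-/

set_option autoImplicit false
set_option linter.style.haveILetI false

namespace Pool.Agent.U434.SS

open Module Module.End LieAlgebra
open Pool.Agent.N184.HK Pool.Agent.U434.PA Pool.Agent.U434.HM
open scoped Classical

section

variable {K H : Type} [Field K] [IsAlgClosed K] [AddCommGroup H] [Module K H]
  [FiniteDimensional K H]

lemma fop_ad (W : AddFun K) (φ : H ≃ₗ[K] H) (A : Module.End K H) :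
    fop (adE φ) W.w A = fop (en φ) W.w * A - A * fop (en φ) W.w := by
  have key : fop (adE φ) W.w =
      LinearMap.mulLeft K (fop (en φ) W.w) - LinearMap.mulRight K (fop (en φ) W.w) := by
    refine ext_gen (adE φ) fun t B hB => ?_
    rw [fop_apply _ hB]
    exact (comm_fop' W hB).symm
  rw [key]
  rfl

end

section

variable {Ω : Type} [Field Ω] [CharZero Ω] [IsAlgClosed Ω] [TopologicalSpace Ω]
  {X : HKFamily Ω}

omit [CharZero Ω] in
lemma gal_adE (σ : X.G) {A : Module.End Ω (X.H.H 2)} (hA : A ∈ galLie X Set.univ) :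
    adE ((X.F σ).φ 2) A ∈ galLie X Set.univ := by
  have h1 : galLie X Set.univ ≤ (galLie X Set.univ).comap (adE ((X.F σ).φ 2)) := by
    conv_lhs => rw [galLie]
    rw [Submodule.span_le]
    rintro _ ⟨τ, -, W, rfl⟩
    change adE ((X.F σ).φ 2) (SS (X.F τ) W) ∈ galLie X Set.univ
    rw [← SS_conj]
    exact Submodule.subset_span ⟨_, Set.mem_univ _, W, rfl⟩
  exact h1 hA

omit [CharZero Ω] in
lemma gal_lie {A B : Module.End Ω (X.H.H 2)} (hA : A ∈ galLie X Set.univ)
    (hB : B ∈ galLie X Set.univ) : A * B - B * A ∈ galLie X Set.univ := by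
  have h1 : galLie X Set.univ ≤ (galLie X Set.univ).comap
      (LinearMap.mulRight Ω B - LinearMap.mulLeft Ω B) := by
    conv_lhs => rw [galLie]
    rw [Submodule.span_le]
    rintro _ ⟨σ, -, W, rfl⟩
    change SS (X.F σ) W * B - B * SS (X.F σ) W ∈ galLie X Set.univ
    have h2 : SS (X.F σ) W * B - B * SS (X.F σ) W = fop (adE ((X.F σ).φ 2)) W.w B := by
      rw [fop_ad, SS, sub_mul, mul_sub, smul_mul_assoc, mul_smul_comm, one_mul, mul_one]
      abel
    rw [h2]
    exact fop_stable (fun A hA => gal_adE σ hA) _ hB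
  exact h1 hA

attribute [local instance 100] LieRing.ofAssociativeRing

lemma gal_skew {A : Module.End Ω (X.H.H 2)} (hA : A ∈ galLie X Set.univ) : Skew X.H.q A := by
  have h1 : galLie X Set.univ ≤ (soL X.H.q).toSubmodule := by
    rw [galLie, Submodule.span_le]
    rintro _ ⟨σ, -, W, rfl⟩
    exact SS_skew (X.F σ) W
  exact h1 hA

/-- The Lie algebra `galLie X`. -/
noncomputable def galL (X : HKFamily Ω) : LieSubalgebra Ω (Module.End Ω (X.H.H 2)) where
  __ := galLie X Set.univ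
  lie_mem' := by
    intro A B hA hB
    change ⁅A, B⁆ ∈ galLie X Set.univ
    rw [Ring.lie_def]
    exact gal_lie hA hB

omit [CharZero Ω] in
lemma mem_galL {A : Module.End Ω (X.H.H 2)} : A ∈ galL X ↔ A ∈ galLie X Set.univ := Iff.rfl

omit [CharZero Ω] in
/-- The `G`-stable subspaces of `H²` are stable under the Lie algebra. -/
lemma gal_stable_two (N : Submodule Ω (X.H.H 2)) (hN : ∀ σ, ∀ x ∈ N, (X.F σ).φ 2 x ∈ N) :
    ∀ A ∈ galLie X Set.univ, ∀ x ∈ N, A x ∈ N := by
  intro A hA x hx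
  have h1 : galLie X Set.univ ≤ N.comap (LinearMap.applyₗ x) := by
    rw [galLie, Submodule.span_le]
    rintro _ ⟨σ, -, W, rfl⟩
    change SS (X.F σ) W x ∈ N
    rw [SS, LinearMap.sub_apply]
    refine N.sub_mem (fop_stable (f := en ((X.F σ).φ 2)) (hN σ) _ hx) ?_
    rw [LinearMap.smul_apply]
    exact N.smul_mem _ hx
  exact h1 hA

lemma gal_rad (h2 : Semisimple X 2) (z : galL X) (hz : z ∈ radical Ω (galL X)) :
    Diag (z : Module.End Ω (X.H.H 2)) ∧ ∀ x : galL X, Commute (z : Module.End Ω (X.H.H 2)) x :=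
  rad_diag (fun σ => (X.F σ).φ 2) (HM.phi_one 2) (fun σ τ x => HM.phi_mul σ τ 2 x) (galL X)
    (fun σ _ hA => gal_adE σ hA) gal_stable_two h2 z hz

/-- Complete reducibility of the representation of the Lie algebra on `H^i`. -/
theorem gal_compl (h2 : Semisimple X 2) (i : ℕ) (N : Submodule Ω (X.H.H i))
    (hN : ∀ A ∈ galLie X Set.univ, ∀ x ∈ N, X.H.ρ i A x ∈ N) :
    ∃ C : Submodule Ω (X.H.H i), (∀ A ∈ galLie X Set.univ, ∀ x ∈ C, X.H.ρ i A x ∈ C) ∧
      IsCompl N C := by
  haveI : FiniteDimensional Ω (galL X) :=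
    inferInstanceAs (FiniteDimensional Ω (galL X).toSubmodule)
  let f : galL X →ₗ⁅Ω⁆ Module.End Ω (X.H.H i) :=
    { toFun := fun a => X.H.ρ i a
      map_add' := fun a b => by
        show X.H.ρ i ((a : Module.End Ω (X.H.H 2)) + b) = _
        rw [map_add]
      map_smul' := fun c a => by
        show X.H.ρ i (c • (a : Module.End Ω (X.H.H 2))) = _
        rw [map_smul]; rfl
      map_lie' := fun {a b} => by
        show X.H.ρ i (⁅(a : Module.End Ω (X.H.H 2)), (b : Module.End Ω (X.H.H 2))⁆) = _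
        rw [Ring.lie_def, X.H.bracket i _ _ (gal_skew a.2) (gal_skew b.2), Ring.lie_def] }
  obtain ⟨C, hC, hcompl⟩ := red_compl f (fun z hz =>
      rep_diag X.H.symm X.H.nondeg X.H.dim3 (X.H.bracket i) (gal_skew z.2) (gal_rad h2 z hz).1)
    (fun z hz x => by
      change X.H.ρ i z * X.H.ρ i x = X.H.ρ i x * X.H.ρ i z
      rw [← sub_eq_zero, ← X.H.bracket i _ _ (gal_skew z.2) (gal_skew x.2),
        ((gal_rad h2 z hz).2 x).eq, sub_self, map_zero]) N (fun x v hv => hN x x.2 v hv)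
  exact ⟨C, fun A hA x hx => hC ⟨A, hA⟩ x hx, hcompl⟩

end

section

variable {Ω : Type} [Field Ω] [CharZero Ω] [IsAlgClosed Ω] [TopologicalSpace Ω]
  [IsTopologicalRing Ω] [T2Space Ω] {X : HKFamily Ω}

/-- The `G`-stable subspaces of `H^i` are stable under the Lie algebra. -/
lemma gal_stable {i : ℕ} (hi : i ≤ X.d) (N : Submodule Ω (X.H.H i))
    (hN : ∀ σ, ∀ x ∈ N, (X.F σ).φ i x ∈ N) :
    ∀ A ∈ galLie X Set.univ, ∀ x ∈ N, X.H.ρ i A x ∈ N := by
  intro A hA x hx
  have h1 : galLie X Set.univ ≤ N.comap (LinearMap.applyₗ x ∘ₗ X.H.ρ i) := by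
    rw [galLie, Submodule.span_le]
    rintro _ ⟨σ, -, W, rfl⟩
    change X.H.ρ i (SS (X.F σ) W) x ∈ N
    have h2 := fop_formula (inClosure σ) W hi
    rw [← sub_eq_iff_eq_add'] at h2
    rw [← h2, LinearMap.sub_apply]
    refine N.sub_mem (fop_stable (f := en ((X.F σ).φ i)) (hN σ) _ hx) ?_
    rw [LinearMap.smul_apply]
    exact N.smul_mem _ hx
  exact h1 hA

end

end Pool.Agent.U434.SS
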