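import Pool.Agent.U434.SS.LDefs

/-!
# Poles of the L-functions of hyperkähler varieties: definitions
-/

set_option autoImplicit false

namespace Pool.Agent.U434.SS

open Module Polynomial
open Pool.Agent.N184.HK Pool.Agent.U434.PA Pool.Agent.U434.HM
open scoped Topology

/-- `ord_(s = a) f = k`: the function `(s - a) ^ (-k) f(s)` has a finite nonzero limit as the real number
`s` tends to `a` from the right. -/
def HasOrder (f : ℝ → ℂ) (a : ℝ) (k : ℤ) : Prop :=
  ∃ c : ℂ, c ≠ 0 ∧ Filter.Tendsto (fun s : ℝ => ((s - a : ℝ) : ℂ) ^ (-k) * f s) (𝓝[>] a) (𝓝 c)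

/-- The common eigenspace of the operators `f σ` for the eigenvalues `χ σ`. -/
def commonEigenspace {K V G : Type} [Field K] [AddCommGroup V] [Module K V]
    (f : G → Module.End K V) (χ : G → K) : Submodule K V :=
  ⨅ σ, (f σ).eigenspace (χ σ)

variable {Ω : Type} [Field Ω] [CharZero Ω] [TopologicalSpace Ω]

/-- The Tate classes over the base field: the elements `x` of `H^(2m)(X)` with `σ x = χ(σ) ^ m x` for all
elements `σ` of the Galois group (geometric Frobenius elements of `p` act on `Ω(-1)` by `χ = p`). So this is
the space of the invariants of the Galois group in `H^(2m)(X)(m)`. -/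
def tate (X : HKFamily Ω) (c : Cyclotomic X) (m : ℕ) : Submodule Ω (X.H.H (2 * m)) :=
  commonEigenspace (fun σ => en ((X.F σ).φ (2 * m))) fun σ => c.χ σ ^ m

/-- The L-function of `H^(2m)(X)` for a real number `s`: the product of the Euler factors
`det(1 - p ^ (-s) F_p | H^(2m)(X))⁻¹` for the primes `p` which do not divide `N` and of the factors
`P_p(p ^ (-s))⁻¹` for the primes `p` which divide `N`, where `P_p = bad p m` is the polynomial
`det(1 - T F_p)` on the invariants of the inertia group. -/
noncomputable def lfun (X : HKFamily Ω) (N : ℕ) (bad : ℕ → ℕ → ℂ[X]) (m : ℕ) (s : ℝ) : ℂ :=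
  (∏ p ∈ N.primeFactors, ((bad p m).eval ((p : ℂ) ^ (-(s : ℂ))))⁻¹) *
    ∏' v, (revEval (X.poly v (2 * m)) ((X.norm v : ℂ) ^ (-(s : ℂ))))⁻¹

/-- The invariants of a projective hyperkähler variety over the rational numbers with a smooth model
over `ℤ[1/N]`: `bad p m` is the Euler factor at the prime `p` dividing `N`; `alg m` is the subspace of
`H^(2m)(X)` generated by the classes of the cycles on `X` (over the rational numbers) of
codimension `m`; its dimension is the rank of the group `B^m(X)`. The fields `one`, `dual`: the Tate
conjecture is known for `X` in codimension `m ≤ 1` and `m ≥ dim X - 1` (André for divisors; it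
follows for curves by the hard Lefschetz theorem). The field `hecke` is a known theorem: if `H^(2m)(X)`
is semisimple and potentially abelian, then its L-function has a pole of order `dim tate` at
`s = m + 1`. Indeed `H^(2m)(X)(m)` is then locally algebraic (Serre, Henniart), so a virtual sum of
representations induced from algebraic Hecke characters (Brauer), and the L-function of a unitary
Hecke character has at `s = 1` a simple pole if the character is trivial, and is finite and not zero
otherwise (Hecke). -/
structure PoleData (X : HKFamily Ω) (N : ℕ) where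
  overInt : IsOverInt X N
  c : Cyclotomic X
  bad : ℕ → ℕ → ℂ[X]
  alg : ∀ m, Submodule Ω (X.H.H (2 * m))
  alg_le : ∀ m, alg m ≤ tate X c m
  one : ∀ m ≤ 1, tate X c m ≤ alg m
  dual : ∀ m, 2 * m ≤ X.d → X.d ≤ 2 * m + 2 → tate X c m ≤ alg m
  hecke : ∀ m, 2 * m ≤ X.d → Semisimple X (2 * m) → PotentiallyAbelian X (2 * m) →
    HasOrder (lfun X N bad m) (m + 1) (-(finrank Ω (tate X c m) : ℤ))

/-- The L-function `L(X, s)` of `H^(2m)(X)`. -/
noncomputable def PoleData.L {X : HKFamily Ω} {N : ℕ} (W : PoleData X N) (m : ℕ) : ℝ → ℂ :=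
  lfun X N W.bad m

/-- The function `L(X, s)` has the order `-r` at `s = m + 1`: a pole of order `r`. -/
def PoleData.HasPole {X : HKFamily Ω} {N : ℕ} (W : PoleData X N) (m r : ℕ) : Prop :=
  HasOrder (W.L m) (m + 1) (-(r : ℤ))

/-- The dimension of the space of the Tate classes. -/
noncomputable def PoleData.tateRank {X : HKFamily Ω} {N : ℕ} (W : PoleData X N) (m : ℕ) : ℕ :=
  finrank Ω (tate X W.c m)

/-- The rank of `B^m(X)`. -/
noncomputable def PoleData.rankB {X : HKFamily Ω} {N : ℕ} (W : PoleData X N) (m : ℕ) : ℕ :=
  finrank Ω (W.alg m)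

/-- The Tate conjecture for `X` over the rational numbers: the Tate classes of codimension `m` are
linear combinations of classes of cycles. -/
def PoleData.TateConjecture {X : HKFamily Ω} {N : ℕ} (W : PoleData X N) (m : ℕ) : Prop :=
  tate X W.c m ≤ W.alg m

end Pool.Agent.U434.SS
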