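import Pool.Agent.U434.SS.PDefs
import Pool.Agent.U434.SS.CM

/-!
# Poles of the L-functions of hyperkähler varieties with complex multiplication
-/

set_option autoImplicit false

namespace Pool.Agent.U434.SS

open Module Polynomial
open Pool.Agent.N184.HK Pool.Agent.U434.PA Pool.Agent.U434.HM
open scoped Topology

lemma order_le {f : ℝ → ℂ} {a : ℝ} {k k' : ℤ} (h : HasOrder f a k) (h' : HasOrder f a k') :
    k' ≤ k := by
  by_contra hlt
  push Not at hlt
  obtain ⟨c, hc, hf⟩ := h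
  obtain ⟨c', -, hf'⟩ := h'
  obtain ⟨n, hn⟩ : ∃ n : ℕ, k' - k = (n : ℤ) + 1 := ⟨(k' - k - 1).toNat, by omega⟩
  have h0 : Filter.Tendsto (fun s : ℝ => ((s - a : ℝ) : ℂ)) (𝓝[>] a) (𝓝 0) := by
    have h1 : Filter.Tendsto (fun s : ℝ => ((s - a : ℝ) : ℂ)) (𝓝 a) (𝓝 (((a - a : ℝ)) : ℂ)) :=
      (Complex.continuous_ofReal.comp (continuous_id.sub continuous_const)).tendsto a
    rw [sub_self, Complex.ofReal_zero] at h1
    exact h1.mono_left nhdsWithin_le_nhds
  have h1 : Filter.Tendsto (fun s : ℝ => ((s - a : ℝ) : ℂ) ^ (n + 1) *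
      (((s - a : ℝ) : ℂ) ^ (-k') * f s)) (𝓝[>] a) (𝓝 (0 ^ (n + 1) * c')) :=
    (h0.pow (n + 1)).mul hf'
  rw [zero_pow (Nat.succ_ne_zero n), zero_mul] at h1
  refine hc (tendsto_nhds_unique hf (h1.congr' ?_))
  filter_upwards [self_mem_nhdsWithin] with s hs
  have hs0 : ((s - a : ℝ) : ℂ) ≠ 0 := by
    have : (s - a : ℝ) ≠ 0 := (sub_pos.2 hs).ne'
    exact_mod_cast this
  rw [← mul_assoc, ← zpow_natCast, ← zpow_add₀ hs0]
  congr 2
  push_cast
  omega

lemma order_unique {f : ℝ → ℂ} {a : ℝ} {k k' : ℤ} (h : HasOrder f a k) (h' : HasOrder f a k') :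
    k = k' :=
  le_antisymm (order_le h' h) (order_le h h')

variable {Ω : Type} [Field Ω] [CharZero Ω] [TopologicalSpace Ω] {X : HKFamily Ω} {N : ℕ}

lemma question_iff (W : PoleData X N) {m : ℕ} (h : W.HasPole m (W.tateRank m)) :
    W.HasPole m (W.rankB m) ↔ W.TateConjecture m := by
  constructor
  · intro hQ
    have h1 := order_unique hQ h
    have h2 : finrank Ω (W.alg m) = finrank Ω (tate X W.c m) := by exact_mod_cast neg_inj.1 h1
    exact (Submodule.eq_of_le_of_finrank_eq (W.alg_le m) h2).ge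
  · intro he
    have h2 : W.rankB m = W.tateRank m := by
      rw [PoleData.rankB, PoleData.tateRank, le_antisymm (W.alg_le m) he]
    rw [h2]
    exact h

end Pool.Agent.U434.SS
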