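import Pool.Agent.U434.SS.Red
import Pool.Agent.U434.SS.Frob

/-!
# The radical of a Lie algebra which is stable under a semisimple group
-/

set_option autoImplicit false
set_option linter.style.haveILetI false

namespace Pool.Agent.U434.SS

open Module Module.End LieAlgebra
open Pool.Agent.N184.HK Pool.Agent.U434.PA Pool.Agent.U434.HM
open scoped Classical

section

attribute [local instance 100] LieRing.ofAssociativeRing

variable {K V : Type} [Field K] [CharZero K] [IsAlgClosed K] [AddCommGroup V] [Module K V]
  [FiniteDimensional K V]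

/-- Let `G` act semisimply on `V` and let `L` be a Lie algebra of endomorphisms of `V`, stable under
conjugation, such that the `G`-stable subspaces are `L`-stable. Then the radical of `L` consists of
central diagonalizable elements. -/
theorem rad_diag {G : Type} [Group G] (g : G → V ≃ₗ[K] V) (g1 : ∀ x, g 1 x = x)
    (hg : ∀ σ τ x, g (σ * τ) x = g σ (g τ x)) (L : LieSubalgebra K (Module.End K V))
    (hL : ∀ σ, ∀ A ∈ L, adE (g σ) A ∈ L)
    (hst : ∀ N : Submodule K V, (∀ σ, ∀ x ∈ N, g σ x ∈ N) → ∀ A ∈ L, ∀ x ∈ N, A x ∈ N)
    (hss : ∀ N : Submodule K V, (∀ σ, ∀ x ∈ N, g σ x ∈ N) →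
      ∃ C : Submodule K V, (∀ σ, ∀ x ∈ C, g σ x ∈ C) ∧ IsCompl N C)
    (z : L) (hz : z ∈ radical K L) :
    Diag (z : Module.End K V) ∧ ∀ x : L, Commute (z : Module.End K V) x := by
  haveI : FiniteDimensional K L := inferInstanceAs (FiniteDimensional K L.toSubmodule)
  have hbr : ∀ (a : L) (v : V), ⁅a, v⁆ = (a : Module.End K V) v := fun a v => rfl
  have hinv : ∀ σ x, g σ⁻¹ (g σ x) = x := fun σ x => by rw [← hg, inv_mul_cancel, g1]
  have hinv' : ∀ σ x, g σ (g σ⁻¹ x) = x := fun σ x => by rw [← hg, mul_inv_cancel, g1]
  let e : G → LieSubmodule K L V → LieSubmodule K L V := fun σ T =>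
    { carrier := {y | g σ y ∈ T}
      add_mem' := by
        intro a b ha hb
        change g σ (a + b) ∈ T
        rw [map_add]
        exact add_mem ha hb
      zero_mem' := by
        change g σ 0 ∈ T
        rw [map_zero]
        exact zero_mem _
      smul_mem' := by
        intro c x hx
        change g σ (c • x) ∈ T
        rw [map_smul]
        exact T.smul_mem c hx
      lie_mem := by
        intro a y hy
        change g σ ((a : Module.End K V) y) ∈ T
        rw [← adE_apply]
        exact T.lie_mem (x := (⟨_, hL σ a a.2⟩ : L)) hy }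
  have he : ∀ σ T y, y ∈ e σ T ↔ g σ y ∈ T := fun _ _ _ => Iff.rfl
  let E : G → LieSubmodule K L V ≃o LieSubmodule K L V := fun σ =>
    { toFun := e σ
      invFun := e σ⁻¹
      left_inv := by
        intro T
        ext y
        rw [he, he, hinv']
      right_inv := by
        intro T
        ext y
        rw [he, he, hinv]
      map_rel_iff' := by
        intro T T'
        constructor
        · intro h y hy
          have h1 : g σ⁻¹ y ∈ e σ T := by
            rw [he, hinv']
            exact hy
          have h2 := h h1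
          change g σ (g σ⁻¹ y) ∈ T' at h2
          rw [hinv'] at h2
          exact h2
        · intro h y hy
          exact h hy }
  set S : LieSubmodule K L V := sSup {T | IsAtom T} with hS
  have hE : ∀ σ, e σ S ≤ S := by
    intro σ
    change E σ S ≤ S
    rw [hS, (E σ).map_sSup]
    exact iSup₂_le fun T hT => le_sSup (((E σ).isAtom_iff T).2 hT)
  have hSG : ∀ σ, ∀ x ∈ S.toSubmodule, g σ x ∈ S.toSubmodule := by
    intro σ x hx
    have h1 : g σ x ∈ e σ⁻¹ S := by
      rw [he, hinv]
      exact hx
    exact hE σ⁻¹ h1
  obtain ⟨C, hC, hcompl⟩ := hss S.toSubmodule hSG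
  let C' : LieSubmodule K L V :=
    { C with
      lie_mem := by
        intro a y hy
        exact hst C hC a a.2 y hy }
  have hatomic : IsAtomic (LieSubmodule K L V) := inferInstance
  have hC' : C' = ⊥ := by
    rcases IsAtomic.eq_bot_or_exists_atom_le C' with h | ⟨T, hT, hTC⟩
    · exact h
    · exfalso
      refine hT.1 ?_
      rw [LieSubmodule.eq_bot_iff]
      intro x hx
      have h1 : x ∈ S := (le_sSup (show T ∈ {T : LieSubmodule K L V | IsAtom T} from hT)) hx
      have h2 : x ∈ C := hTC hx
      have h3 : x ∈ S.toSubmodule ⊓ C := ⟨h1, h2⟩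
      rw [hcompl.inf_eq_bot, Submodule.mem_bot] at h3
      exact h3
  have hCbot : C = ⊥ := by
    rw [Submodule.eq_bot_iff]
    intro x hx
    have h1 : x ∈ C' := hx
    rw [hC', LieSubmodule.mem_bot] at h1
    exact h1
  have htop : S.toSubmodule = ⊤ := by
    have := hcompl.sup_eq_top
    rwa [hCbot, sup_bot_eq] at this
  have hzero : ∀ B : Module.End K V,
      (∀ T : LieSubmodule K L V, IsAtom T → ∀ s ∈ T, B s = 0) → B = 0 := by
    intro B hB
    rw [← LinearMap.ker_eq_top, eq_top_iff, ← htop, hS, LieSubmodule.sSup_toSubmodule]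
    refine sSup_le ?_
    rintro _ ⟨T, hT, rfl⟩ s hs
    exact hB T hT s hs
  refine ⟨?_, fun x => ?_⟩
  · have h1 : (z : Module.End K V) - fop (z : Module.End K V) id = 0 := by
      refine hzero _ fun T hT s hs => ?_
      obtain ⟨c, hc⟩ := Cb.a19237_R T hT z hz
      have h2 : (z : Module.End K V) s = c • s := hc s hs
      have h3 : s ∈ (z : Module.End K V).maxGenEigenspace c := by
        rw [Module.End.mem_maxGenEigenspace]
        refine ⟨1, ?_⟩
        rw [pow_one, LinearMap.sub_apply, h2]
        exact sub_self _
      rw [LinearMap.sub_apply, h2, fop_apply _ h3, id, sub_self]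
    rw [sub_eq_zero] at h1
    rw [h1]
    exact diag_fop _ _
  · have h1 : (z : Module.End K V) * (x : Module.End K V) -
        (x : Module.End K V) * (z : Module.End K V) = 0 := by
      refine hzero _ fun T hT s hs => ?_
      obtain ⟨c, hc⟩ := Cb.a19237_R T hT z hz
      have h2 : (z : Module.End K V) s = c • s := hc s hs
      have h3 : (z : Module.End K V) ((x : Module.End K V) s) = c • (x : Module.End K V) s :=
        hc _ (T.lie_mem (x := x) hs)
      rw [LinearMap.sub_apply, Module.End.mul_apply, Module.End.mul_apply, h2, h3, map_smul,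
        sub_self]
    exact sub_eq_zero.1 h1

end

end Pool.Agent.U434.SS
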