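import Pool.Agent.U434.SS.Central

/-!
# Complete reducibility for reductive Lie algebras with diagonalizable centre
-/

set_option autoImplicit false
set_option linter.style.haveILetI false

namespace Pool.Agent.U434.SS

open Module Module.End LieAlgebra
open Pool.Agent.N184.HK Pool.Agent.U434.PA Pool.Agent.U434.HM
open scoped Classical

section

variable {K V : Type} [Field K] [IsAlgClosed K] [AddCommGroup V] [Module K V]
  [FiniteDimensional K V]

/-- Functions of `f` preserve the stable subspaces. -/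
lemma fop_stable {f : Module.End K V} {N : Submodule K V} (h : ∀ x ∈ N, f x ∈ N) (w : K → K)
    {x : V} (hx : x ∈ N) : fop f w x ∈ N := by
  have h1 := P_DETP.fop_coe (φ := f) (p := N) (f.restrict h) (fun _ => rfl) w ⟨x, hx⟩
  rw [h1]
  exact Submodule.coe_mem _

/-- The projection to the generalized eigenspace. -/
noncomputable def pr (f : Module.End K V) (e : K) : Module.End K V :=
  fop f fun e' => if e' = e then 1 else 0

lemma pr_mul (f : Module.End K V) (e : K) : pr f e * pr f e = pr f e := by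
  rw [pr, fop_mul]
  congr 1
  funext e'
  by_cases h : e' = e <;> simp [h]

lemma mul_pr {f : Module.End K V} (h : Diag f) (e : K) : f * pr f e = e • pr f e := by
  refine ext_gen f fun e' x hx => ?_
  rw [Module.End.mul_apply, pr, fop_apply _ hx, map_smul, h e' x hx, LinearMap.smul_apply,
    fop_apply _ hx]
  by_cases h1 : e' = e
  · rw [if_pos h1, h1, one_smul, one_smul]
  · rw [if_neg h1, zero_smul, zero_smul, smul_zero]

lemma pr_comm (f : Module.End K V) (e : K) : Commute f (pr f e) := fop_comm (Commute.refl f) _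

lemma sum_pr (f : Module.End K V) : ∑ e ∈ f.charpoly.roots.toFinset, pr f e = 1 := by
  refine ext_gen f fun e x hx => ?_
  rw [LinearMap.sum_apply, Module.End.one_apply]
  by_cases hx0 : x = 0
  · simp [hx0]
  have he : e ∈ f.charpoly.roots.toFinset := Multiset.mem_toFinset.2 (ne_bot_iff.1 fun h => hx0 (by
    rw [h, Submodule.mem_bot] at hx; exact hx))
  rw [Finset.sum_eq_single e]
  · rw [pr, fop_apply _ hx, if_pos rfl, one_smul]
  · intro e' _ hne
    rw [pr, fop_apply _ hx, if_neg (Ne.symm hne), zero_smul]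
  · exact fun h => absurd he h

/-- A stable subspace of a commuting set of diagonalizable operators has an equivariant
projection. -/
lemma exists_proj (Z : Submodule K (Module.End K V)) (hZ : ∀ z ∈ Z, Diag z)
    (hc : ∀ z ∈ Z, ∀ z' ∈ Z, Commute z z') (N : Submodule K V) (hN : ∀ z ∈ Z, ∀ x ∈ N, z x ∈ N) :
    ∃ g : Module.End K V, (∀ v, g v ∈ N) ∧ (∀ n ∈ N, g n = n) ∧ ∀ z ∈ Z, Commute z g := by
  have key : ∀ s : Finset (Module.End K V), (∀ z ∈ s, z ∈ Z) →
      ∃ g : Module.End K V, (∀ v, g v ∈ N) ∧ (∀ n ∈ N, g n = n) ∧ ∀ z ∈ s, Commute z g := by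
    intro s
    induction s using Finset.induction_on with
    | empty =>
      intro _
      obtain ⟨C, hC⟩ := exists_isCompl N
      exact ⟨N.projection C hC, fun v => Submodule.projection_apply_mem hC v,
        fun n hn => Submodule.projection_apply_of_mem_left hC hn, fun z hz =>
          absurd hz (Finset.notMem_empty z)⟩
    | insert z s hzs ih =>
      intro hs
      obtain ⟨g, hg1, hg2, hg3⟩ := ih fun z' hz' => hs z' (Finset.mem_insert_of_mem hz')
      have hz := hs z (Finset.mem_insert_self z s)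
      have hp : ∀ e, ∀ x ∈ N, pr z e x ∈ N := fun e x hx => fop_stable (hN z hz) _ hx
      refine ⟨∑ e ∈ z.charpoly.roots.toFinset, pr z e * g * pr z e, fun v => ?_, fun n hn => ?_,
        fun z' hz' => ?_⟩
      · rw [LinearMap.sum_apply]
        exact Submodule.sum_mem _ fun e _ => hp e _ (hg1 _)
      · have h1 : ∀ e, (pr z e * g * pr z e) n = pr z e n := by
          intro e
          rw [Module.End.mul_apply, Module.End.mul_apply, hg2 _ (hp e n hn), ← Module.End.mul_apply,
            pr_mul]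
        rw [LinearMap.sum_apply, Finset.sum_congr rfl fun e _ => h1 e, ← LinearMap.sum_apply,
          sum_pr, Module.End.one_apply]
      · refine Commute.sum_right _ _ _ fun e _ => ?_
        rcases Finset.mem_insert.1 hz' with rfl | hz'
        · have h1 := mul_pr (hZ z' hz) e
          have h2 : pr z' e * z' = e • pr z' e := by rw [← (pr_comm z' e).eq, h1]
          rw [Commute, SemiconjBy, ← mul_assoc, ← mul_assoc, h1, mul_assoc (pr z' e * g), h2,
            smul_mul_assoc, smul_mul_assoc, mul_smul_comm]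
        · have h1 : Commute z' (pr z e) :=
            fop_comm (hc z' (hs z' (Finset.mem_insert_of_mem hz')) z hz) _
          exact (h1.mul_right (hg3 z' hz')).mul_right h1
  set b := finBasis K Z with hb
  obtain ⟨g, hg1, hg2, hg3⟩ := key (Finset.univ.image fun j => (b j : Module.End K V)) (by
    intro z hz
    obtain ⟨j, -, rfl⟩ := Finset.mem_image.1 hz
    exact (b j).2)
  refine ⟨g, hg1, hg2, fun z hz => ?_⟩
  have h1 : (⟨z, hz⟩ : Z) = ∑ j, b.repr ⟨z, hz⟩ j • b j := (b.sum_repr _).symm
  have h2 : z = ∑ j, b.repr ⟨z, hz⟩ j • (b j : Module.End K V) := by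
    have h3 := congrArg Subtype.val h1
    rw [AddSubmonoidClass.coe_finsetSum] at h3
    exact h3
  rw [h2]
  refine Commute.sum_left _ _ _ fun j _ => Commute.smul_left ?_ _
  exact hg3 _ (Finset.mem_image.2 ⟨j, Finset.mem_univ j, rfl⟩)

end

section

attribute [local instance 100] LieRing.ofAssociativeRing

variable {K : Type} [Field K] [CharZero K] [IsAlgClosed K]

/-- **Complete reducibility** for the representations of a Lie algebra whose radical acts by
diagonalizable operators which commute with the others. -/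
theorem red_compl {L : Type} [LieRing L] [LieAlgebra K L] [FiniteDimensional K L]
    {V : Type} [AddCommGroup V] [Module K V] [FiniteDimensional K V] (f : L →ₗ⁅K⁆ Module.End K V)
    (hd : ∀ z ∈ radical K L, Diag (f z)) (hc : ∀ z ∈ radical K L, ∀ x, Commute (f z) (f x))
    (N : Submodule K V) (hN : ∀ x, ∀ v ∈ N, f x v ∈ N) :
    ∃ C : Submodule K V, (∀ x, ∀ v ∈ C, f x v ∈ C) ∧ IsCompl N C := by
  by_cases hN0 : N = ⊥
  · exact ⟨⊤, fun _ _ _ => trivial, by rw [hN0]; exact isCompl_bot_top⟩
  -- the projection which commutes with the radical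
  obtain ⟨g, hg1, hg2, hg3⟩ := exists_proj ((radical K L).toSubmodule.map f.toLinearMap)
    (by
      rintro _ ⟨z, hz, rfl⟩
      exact hd z hz)
    (by
      rintro _ ⟨z, hz, rfl⟩ _ ⟨z', -, rfl⟩
      exact hc z hz z') N (by
      rintro _ ⟨z, -, rfl⟩ x hx
      exact hN z x hx)
  letI i1 : LieRingModule L (Module.End K V) := LieRingModule.compLieHom (Module.End K V) f
  letI i2 : LieModule K L (Module.End K V) := LieModule.compLieHom (Module.End K V) f
  have hbr : ∀ (x : L) (m : Module.End K V), ⁅x, m⁆ = f x * m - m * f x := by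
    intro x m
    show ⁅f x, m⁆ = _
    rw [Ring.lie_def]
  have hzero : ∀ (x : L) (m : Module.End K V), (∀ v, m v ∈ N) → (∃ c : K, ∀ n ∈ N, m n = c • n) →
      (∀ v, ⁅x, m⁆ v ∈ N) ∧ ∀ n ∈ N, ⁅x, m⁆ n = 0 := by
    rintro x m h1 ⟨c, h2⟩
    refine ⟨fun v => ?_, fun n hn => ?_⟩
    · rw [hbr, LinearMap.sub_apply, Module.End.mul_apply, Module.End.mul_apply]
      exact Submodule.sub_mem _ (hN x _ (h1 v)) (h1 _)
    · rw [hbr, LinearMap.sub_apply, Module.End.mul_apply, Module.End.mul_apply, h2 n hn,
        h2 _ (hN x n hn), map_smul, sub_self]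
  let 𝓔 : LieSubmodule K L (Module.End K V) :=
    { carrier := {m | (∀ z ∈ radical K L, Commute (f z) m) ∧ (∀ v, m v ∈ N) ∧
        ∃ c : K, ∀ n ∈ N, m n = c • n}
      add_mem' := by
        rintro m m' ⟨h1, h2, c, h3⟩ ⟨h1', h2', c', h3'⟩
        refine ⟨fun z hz => (h1 z hz).add_right (h1' z hz), fun v => ?_, c + c', fun n hn => ?_⟩
        · exact Submodule.add_mem _ (h2 v) (h2' v)
        · rw [LinearMap.add_apply, h3 n hn, h3' n hn, add_smul]
      zero_mem' := ⟨fun z _ => Commute.zero_right _, fun v => by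
        rw [LinearMap.zero_apply]; exact Submodule.zero_mem _, 0, fun n _ => by
        rw [LinearMap.zero_apply, zero_smul]⟩
      smul_mem' := by
        rintro a m ⟨h1, h2, c, h3⟩
        refine ⟨fun z hz => (h1 z hz).smul_right a, fun v => ?_, a * c, fun n hn => ?_⟩
        · exact Submodule.smul_mem _ _ (h2 v)
        · rw [LinearMap.smul_apply, h3 n hn, smul_smul]
      lie_mem := by
        rintro x m ⟨h1, h2, h3⟩
        refine ⟨fun z hz => ?_, (hzero x m h2 h3).1, 0, fun n hn => ?_⟩
        · rw [hbr]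
          exact ((hc z hz x).mul_right (h1 z hz)).sub_right ((h1 z hz).mul_right (hc z hz x))
        · rw [(hzero x m h2 h3).2 n hn, zero_smul] }
  have h𝓔 : ∀ m : Module.End K V, m ∈ 𝓔 ↔ (∀ z ∈ radical K L, Commute (f z) m) ∧
    (∀ v, m v ∈ N) ∧ ∃ c : K, ∀ n ∈ N, m n = c • n := fun m => Iff.rfl
  have hg𝓔 : g ∈ 𝓔 := (h𝓔 g).2 ⟨fun z hz => hg3 _ ⟨z, hz, rfl⟩, hg1, 1, fun n hn => by
    rw [hg2 n hn, one_smul]⟩
  let V₁ : LieSubmodule K L 𝓔 :=
    { carrier := {m | ∀ n ∈ N, (m : Module.End K V) n = 0}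
      add_mem' := by
        intro m m' h h' n hn
        have h1 : ((m + m' : 𝓔) : Module.End K V) n =
          (m : Module.End K V) n + (m' : Module.End K V) n := rfl
        rw [h1, h n hn, h' n hn, add_zero]
      zero_mem' := by
        intro n _
        rfl
      smul_mem' := by
        intro a m h n hn
        have h1 : ((a • m : 𝓔) : Module.End K V) n = a • (m : Module.End K V) n := rfl
        rw [h1, h n hn, smul_zero]
      lie_mem := by
        intro x m _ n hn
        exact (hzero x m ((h𝓔 _).1 m.2).2.1 ((h𝓔 _).1 m.2).2.2).2 n hn }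
  have hV₁ : ∀ m : 𝓔, m ∈ V₁ ↔ ∀ n ∈ N, (m : Module.End K V) n = 0 := fun m => Iff.rfl
  have hsplit : Cb.a19237_split K := fun L _ _ _ _ V _ _ _ _ _ V₁ h1 h2 =>
    Cb.splitting (C := K) (L := L) (fun _ => Cb.casimir) V V₁ h1 h2
  obtain ⟨n₀, hn₀, hn₀0⟩ := (Submodule.ne_bot_iff N).1 hN0
  obtain ⟨m, hm1, hm2⟩ := Cb.a19237_split2 hsplit L 𝓔 (by
      intro z hz m
      refine Subtype.ext ?_
      change ⁅z, (m : Module.End K V)⁆ = 0
      rw [hbr, (((h𝓔 _).1 m.2).1 z hz).eq, sub_self]) V₁ (by
      intro htop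
      have h1 : (⟨g, hg𝓔⟩ : 𝓔) ∈ V₁ := by rw [htop]; trivial
      have h2 := (hV₁ _).1 h1 n₀ hn₀
      have h3 : g n₀ = 0 := h2
      rw [hg2 n₀ hn₀] at h3
      exact hn₀0 h3) (by
      intro x m
      exact (hV₁ _).2 (hzero x m ((h𝓔 _).1 m.2).2.1 ((h𝓔 _).1 m.2).2.2).2)
  obtain ⟨-, hmN, c, hmc⟩ := (h𝓔 _).1 m.2
  have hc0 : c ≠ 0 := by
    rintro rfl
    exact hm1 ((hV₁ _).2 fun n hn => by rw [hmc n hn, zero_smul])
  have hcomm : ∀ x, Commute (f x) (m : Module.End K V) := by
    intro x
    have h1 := congrArg Subtype.val (hm2 x)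
    change ⁅x, (m : Module.End K V)⁆ = 0 at h1
    rw [hbr, sub_eq_zero] at h1
    exact h1
  refine ⟨LinearMap.ker (m : Module.End K V), fun x v hv => ?_, ?_⟩
  · rw [LinearMap.mem_ker] at hv ⊢
    have h1 := congrArg (fun g => g v) (hcomm x).eq
    change f x ((m : Module.End K V) v) = (m : Module.End K V) (f x v) at h1
    rw [← h1, hv, map_zero]
  · constructor
    · rw [Submodule.disjoint_def]
      intro v hv hv'
      rw [LinearMap.mem_ker, hmc v hv] at hv'
      exact (smul_eq_zero.1 hv').resolve_left hc0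
    · rw [codisjoint_iff, eq_top_iff]
      intro v _
      have h1 : v = c⁻¹ • (m : Module.End K V) v + (v - c⁻¹ • (m : Module.End K V) v) := by abel
      rw [h1]
      refine Submodule.add_mem_sup (Submodule.smul_mem _ _ (hmN v)) ?_
      rw [LinearMap.mem_ker, map_sub, map_smul, hmc _ (hmN v), smul_smul, inv_mul_cancel₀ hc0,
        one_smul, sub_self]

end

end Pool.Agent.U434.SS
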