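import Pool.Agent.U434.HM.SoDiag
import Pool.Agent.Q8.HK.Weyl

/-!
# Complete reducibility of the representations of `so(V)`
-/

set_option autoImplicit false
set_option linter.style.haveILetI false

namespace Pool.Agent.U434.SS

open Module LieAlgebra
open Pool.Agent.N184.HK Pool.Agent.U434.HM

section

attribute [local instance 100] LieRing.ofAssociativeRing

variable {K V : Type} [Field K] [AddCommGroup V] [Module K V]

/-- The Lie algebra `so(V)`. -/
def soL (q : LinearMap.BilinForm K V) : LieSubalgebra K (Module.End K V) where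
  carrier := {a | Skew q a}
  add_mem' := by
    intro a b ha hb x y
    have h1 := ha x y
    have h2 := hb x y
    simp only [LinearMap.add_apply, map_add]
    linear_combination h1 + h2
  zero_mem' := by
    intro x y
    simp
  smul_mem' := by
    intro c a ha x y
    have h1 := ha x y
    simp only [LinearMap.smul_apply, map_smul, smul_eq_mul]
    linear_combination c * h1
  lie_mem' := by
    intro a b ha hb x y
    have h1 := ha (b x) y
    have h2 := hb (a x) y
    have h3 := ha x (b y)
    have h4 := hb x (a y)
    rw [Ring.lie_def]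
    simp only [LinearMap.sub_apply, Module.End.mul_apply, map_sub]
    linear_combination h1 - h2 + h3 - h4

lemma mem_soL {q : LinearMap.BilinForm K V} {a : Module.End K V} : a ∈ soL q ↔ Skew q a := Iff.rfl

lemma trace_wed [FiniteDimensional K V] {q : LinearMap.BilinForm K V} (hq : q.IsSymm)
    {a : Module.End K V} (ha : Skew q a) (e f : V) :
    LinearMap.trace K V (a * wed q e f) = 2 * q (a e) f := by
  have h : a * wed q e f = (q f).smulRight (a e) - (q e).smulRight (a f) := by
    ext x
    simp [wed_apply, LinearMap.smulRight_apply]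
  have h1 := ha e f
  have h2 : q f (a e) = q (a e) f := hq.eq f (a e)
  rw [h, map_sub, LinearMap.trace_smulRight, LinearMap.trace_smulRight, h2]
  linear_combination -h1

variable [CharZero K] [IsAlgClosed K] [FiniteDimensional K V]

/-- The radical of `so(V)` is trivial. -/
theorem so_rad {q : LinearMap.BilinForm K V} (hq : q.IsSymm) (hn : q.Nondegenerate)
    (hd : 3 ≤ finrank K V) : HasTrivialRadical K (soL q) := by
  haveI : FiniteDimensional K (soL q) :=
    inferInstanceAs (FiniteDimensional K (soL q).toSubmodule)
  constructor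
  rw [LieSubmodule.eq_bot_iff]
  intro z hz
  have h2 : (2 : K) ≠ 0 := two_ne_zero
  have hzero : ∀ a : Module.End K V, (∀ e f, q (a e) f = 0) → a = 0 := by
    intro a ha
    refine LinearMap.ext fun e => ?_
    exact hn.1 (a e) fun f => ha e f
  -- commutation
  have hcomm : ∀ X : Module.End K V, Skew q X → (z : Module.End K V) * X = X * z := by
    intro X hX
    rw [← sub_eq_zero]
    have hs : Skew q ((z : Module.End K V) * X - X * z) := by
      have := (soL q).lie_mem z.2 hX
      rw [Ring.lie_def] at this
      exact this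
    refine hzero _ fun u v => ?_
    have hY : Skew q (wed q u v) := wed_skew hq u v
    obtain ⟨k, hk⟩ := Q8.HK.nil z (⟨X, hX⟩ : soL q) (⟨wed q u v, hY⟩ : soL q) hz _ V rfl
    have h1 : (((z : Module.End K V) * X - X * z) * wed q u v) ^ k = 0 := by
      refine LinearMap.ext fun w => ?_
      have h2 : ∀ (j : ℕ) (w : V),
          ((((z : Module.End K V) * X - X * z) * wed q u v) ^ j) w =
          (fun w : V => ⁅⁅z, (⟨X, hX⟩ : soL q)⁆, ⁅(⟨wed q u v, hY⟩ : soL q), w⁆⁆)^[j] w := by
        intro j
        induction j with
        | zero => intro w; rfl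
        | succ j ih =>
          intro w
          rw [pow_succ, Module.End.mul_apply, ih, Function.iterate_succ_apply]
          rfl
      rw [h2, hk]
      rfl
    have h3 := (LinearMap.isNilpotent_trace_of_isNilpotent ⟨k, h1⟩).eq_zero
    rw [trace_wed hq hs] at h3
    exact (mul_eq_zero.1 h3).resolve_left h2
  obtain ⟨z, hzs⟩ := z
  have hzs' : Skew q z := hzs
  refine Subtype.ext (hzero z fun e f => ?_)
  have h3 := pz (q := q) (ρ := LinearMap.id) (fun _ _ _ _ => rfl) (z := z)
    (fun A hA => (hcomm A hA).symm) (t_perf K V q hq hn hd (wed q e f) (wed_skew hq e f))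
  rw [LinearMap.id_apply, LinearMap.trace_mul_comm, trace_wed hq hzs'] at h3
  exact (mul_eq_zero.1 h3).resolve_left h2

/-- **Complete reducibility** of the representations of `so(V)`. -/
theorem so_compl {q : LinearMap.BilinForm K V} (hq : q.IsSymm) (hn : q.Nondegenerate)
    (hd : 3 ≤ finrank K V) {H : Type} [AddCommGroup H] [Module K H] [FiniteDimensional K H]
    {ρ : Act K V H} (hρ : ρ.IsRep q) (N : Submodule K H)
    (hN : ∀ A, Skew q A → ∀ x ∈ N, ρ A x ∈ N) :
    ∃ C : Submodule K H, (∀ A, Skew q A → ∀ x ∈ C, ρ A x ∈ C) ∧ IsCompl N C := by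
  haveI : FiniteDimensional K (soL q) :=
    inferInstanceAs (FiniteDimensional K (soL q).toSubmodule)
  haveI := so_rad hq hn hd
  let f : soL q →ₗ⁅K⁆ Module.End K H :=
    { toFun := fun a => ρ a
      map_add' := fun a b => by
        show ρ ((a : Module.End K V) + b) = _
        rw [map_add]
      map_smul' := fun c a => by
        show ρ (c • (a : Module.End K V)) = _
        rw [map_smul]; rfl
      map_lie' := fun {a b} => by
        show ρ (⁅(a : Module.End K V), (b : Module.End K V)⁆) = _
        rw [Ring.lie_def, hρ _ _ a.2 b.2, Ring.lie_def] }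
  letI i1 : LieRingModule (soL q) H := LieRingModule.compLieHom H f
  letI i2 : LieModule K (soL q) H := LieModule.compLieHom H f
  have hbr : ∀ (a : soL q) (m : H), ⁅a, m⁆ = ρ a m := fun a m => rfl
  have hsplit : Cb.a19237_split K := fun L _ _ _ _ V _ _ _ _ _ V₁ h1 h2 =>
    Cb.splitting (C := K) (L := L) (fun _ => Cb.casimir) V V₁ h1 h2
  let N' : LieSubmodule K (soL q) H :=
    { N with
      lie_mem := by
        intro a m hm
        rw [hbr]
        exact hN a a.2 m hm }
  obtain ⟨C, hC⟩ := Cb.a19237_B hsplit (soL q) H (by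
    intro z hz
    rw [HasTrivialRadical.radical_eq_bot, LieSubmodule.mem_bot] at hz
    exact ⟨0, fun v => by rw [hz, zero_lie, zero_smul]⟩) N'
  refine ⟨C.toSubmodule, ?_, ?_⟩
  · intro a ha m hm
    have h1 : ⁅(⟨a, ha⟩ : soL q), m⁆ ∈ C := C.lie_mem hm
    rw [hbr] at h1
    exact h1
  · have h1 := hC.inf_eq_bot
    have h2 := hC.sup_eq_top
    constructor
    · rw [disjoint_iff, eq_bot_iff]
      rintro v ⟨hv1, hv2⟩
      have h3 : v ∈ N' ⊓ C := by
        rw [LieSubmodule.mem_inf]
        exact ⟨hv1, hv2⟩
      rw [h1, LieSubmodule.mem_bot] at h3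
      rw [Submodule.mem_bot]
      exact h3
    · rw [codisjoint_iff, eq_top_iff]
      intro v _
      have h3 : v ∈ N' ⊔ C := by
        rw [h2]; trivial
      rw [LieSubmodule.mem_sup] at h3
      rw [Submodule.mem_sup]
      exact h3

end

end Pool.Agent.U434.SS
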